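import Pool.Agent.X246.ACR.Ptf

set_option autoImplicit false

/-!
# Reductions to small-set expansion and average sensitivity
-/

namespace Pool.Agent.X246.ACR

open Finset Pool.Agent.Y601

open scoped Classical

section pairs

variable {N : ℕ} {R β : Type} [Fintype R]

/-- Double counting of the changed entries, average case. -/
theorem pairs_main (Y : (Fin N → Bool) → R → β) (A : (Fin N → Bool) → Prop) (m B γ : ℝ)
    (hm : 0 ≤ m)
    (hpair : ∀ x i, A x → A (SSE.flip i x) →
      m ≤ ((univ.filter fun r => Y (SSE.flip i x) r ≠ Y x r).card : ℝ))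
    (hA : (1 / 2 + γ) * 2 ^ N ≤ ((univ.filter fun x => A x).card : ℝ))
    (hB : ∀ r, ∑ x, ((univ.filter fun i => Y (SSE.flip i x) r ≠ Y x r).card : ℝ) ≤ B * 2 ^ N) :
    2 * γ * N * m ≤ Fintype.card R * B := by
  have h1 : ∀ (x : Fin N → Bool) (i : Fin N), m * (if A x ∧ A (SSE.flip i x) then (1 : ℝ) else 0) ≤
      ((univ.filter fun r => Y (SSE.flip i x) r ≠ Y x r).card : ℝ) := by
    intro x i
    by_cases h : A x ∧ A (SSE.flip i x)
    · rw [if_pos h, mul_one]
      exact hpair x i h.1 h.2
    · rw [if_neg h, mul_zero]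
      exact Nat.cast_nonneg _
  have h2 : ∀ i : Fin N, m * (2 * γ * 2 ^ N) ≤
      ∑ x, ((univ.filter fun r => Y (SSE.flip i x) r ≠ Y x r).card : ℝ) := by
    intro i
    have h3 := pairs_ge A γ (by rw [Fintype.card_fin]; exact hA) i
    rw [Fintype.card_fin] at h3
    refine (mul_le_mul_of_nonneg_left h3 hm).trans ?_
    rw [mul_sum]
    exact sum_le_sum fun x _ => h1 x i
  have h3 := sum_le_sum fun i (_ : i ∈ (univ : Finset (Fin N))) => h2 i
  rw [sum_const, card_univ, Fintype.card_fin, nsmul_eq_mul] at h3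
  have h4 : ∑ i : Fin N, ∑ x, ((univ.filter fun r => Y (SSE.flip i x) r ≠ Y x r).card : ℝ) =
      ∑ r, ∑ x, ((univ.filter fun i => Y (SSE.flip i x) r ≠ Y x r).card : ℝ) := by
    simp_rw [card_filter]
    push_cast
    rw [sum_comm, sum_comm (s := (univ : Finset R))]
    exact sum_congr rfl fun x _ => sum_comm
  rw [h4] at h3
  have h5 : ∑ r, ∑ x, ((univ.filter fun i => Y (SSE.flip i x) r ≠ Y x r).card : ℝ) ≤
      ∑ _r : R, B * 2 ^ N := sum_le_sum fun r _ => hB r
  rw [sum_const, card_univ, nsmul_eq_mul] at h5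
  have h6 : (2 * γ * N * m) * 2 ^ N ≤ (Fintype.card R * B) * 2 ^ N := by linarith
  exact le_of_mul_le_mul_right h6 (by positivity)

/-- Double counting of the changed entries along the staircase. -/
theorem stair_pairs (Y : (Fin N → Bool) → R → β) (m : ℝ) (M : ℕ)
    (hpair : ∀ j < N, m ≤ ((univ.filter fun r => Y (stair N (j + 1)) r ≠ Y (stair N j) r).card : ℝ))
    (hM : ∀ r, ((range N).filter fun j => Y (stair N (j + 1)) r ≠ Y (stair N j) r).card ≤ M) :
    N * m ≤ Fintype.card R * M := by
  have h2 := sum_le_sum fun j (hj : j ∈ range N) => hpair j (mem_range.1 hj)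
  rw [sum_const, card_range, nsmul_eq_mul] at h2
  have h3 : ∑ j ∈ range N, ((univ.filter fun r => Y (stair N (j + 1)) r ≠ Y (stair N j) r).card : ℝ) =
      ∑ r, (((range N).filter fun j => Y (stair N (j + 1)) r ≠ Y (stair N j) r).card : ℝ) := by
    simp_rw [card_filter]
    push_cast
    rw [sum_comm]
  rw [h3] at h2
  have h4 : ∑ r, (((range N).filter fun j => Y (stair N (j + 1)) r ≠ Y (stair N j) r).card : ℝ) ≤
      ∑ _r : R, (M : ℝ) := sum_le_sum fun r _ => by exact_mod_cast hM r
  rw [sum_const, card_univ, nsmul_eq_mul] at h4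
  linarith

end pairs

section sse

variable {V : Type} [Fintype V]

/-- The neighbours of `u` in `G` are listed, each once, by the nonempty entries of `nb u`. -/
def NbLists {D : ℕ} (G : SimpleGraph V) (nb : V → Fin D → Option V) : Prop :=
  (∀ u v, G.Adj u v ↔ ∃ j, nb u j = some v) ∧
    ∀ u j j' v, nb u j = some v → nb u j' = some v → j = j'

theorem lost_le {D : ℕ} {G H : SimpleGraph V} {a b : V → Fin D → Option V} (hG : NbLists G a)
    (hH : NbLists H b) :
    SSE.lost G H ≤ (univ.filter fun r : V × Fin D => b r.1 r.2 ≠ a r.1 r.2).card := by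
  unfold SSE.lost
  have hinj : Function.Injective fun p : V × V => (p.1, some p.2) := by
    intro p q h
    simp only [Prod.mk.injEq, Option.some.injEq] at h
    exact Prod.ext h.1 h.2
  rw [← card_image_of_injective _ hinj]
  refine le_trans (card_le_card ?_) (card_image_le (s := univ.filter fun r : V × Fin D =>
    b r.1 r.2 ≠ a r.1 r.2) (f := fun r => (r.1, a r.1 r.2)))
  intro q hq
  rw [mem_image] at hq
  obtain ⟨p, hp, rfl⟩ := hq
  rw [mem_filter] at hp
  obtain ⟨j, hj⟩ := (hG.1 _ _).1 hp.2.1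
  rw [mem_image]
  refine ⟨(p.1, j), ?_, by rw [hj]⟩
  rw [mem_filter]
  refine ⟨mem_univ _, fun h => hp.2.2 ?_⟩
  rw [hH.1]
  exact ⟨j, h.trans hj⟩

/-- The instance `(G, nb)` is right for the parity `p` (true: odd) of the input. -/
structure SseRight {D : ℕ} (ε η κ : ℝ) (k : ℕ) (p : Prop) (G : SimpleGraph V)
    (nb : V → Fin D → Option V) : Prop where
  lists : NbLists G nb
  regular : ∃ d : ℕ, 1 ≤ d ∧ κ * D ≤ d ∧ (∀ v, (univ.filter fun w => G.Adj v w).card = d) ∧
    (¬ p → ∃ S : Finset V, S.card = k ∧ (SSE.cut G S : ℝ) ≤ ε * (d * k)) ∧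
    (p → ∀ S : Finset V, S.card = k → (1 - η) * (d * k) ≤ SSE.cut G S)

theorem sse_pair {D k : ℕ} {ε η κ : ℝ} (hε : 0 ≤ ε) (hη : 0 ≤ η) (hεη : ε + η < 1)
    (hkV : k ≤ Fintype.card V) {p q : Prop} (hpq : q ↔ ¬ p) {G H : SimpleGraph V}
    {a b : V → Fin D → Option V} (hG : SseRight ε η κ k p G a) (hH : SseRight ε η κ k q H b) :
    (1 - ε - η) * κ * k * D / 2 ≤
      ((univ.filter fun r : V × Fin D => b r.1 r.2 ≠ a r.1 r.2).card : ℝ) := by
  obtain ⟨h1, d, hd1, hd2, hd3, hd4, hd5⟩ := hG
  obtain ⟨h1', d', hd1', hd2', hd3', hd4', hd5'⟩ := hH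
  have e1 : (SSE.lost G H : ℝ) ≤
      ((univ.filter fun r : V × Fin D => b r.1 r.2 ≠ a r.1 r.2).card : ℝ) := by
    exact_mod_cast lost_le h1 h1'
  have e2 : (SSE.lost H G : ℝ) ≤
      ((univ.filter fun r : V × Fin D => b r.1 r.2 ≠ a r.1 r.2).card : ℝ) := by
    have h2 := lost_le h1' h1
    have h3 : (univ.filter fun r : V × Fin D => a r.1 r.2 ≠ b r.1 r.2) =
        (univ.filter fun r : V × Fin D => b r.1 r.2 ≠ a r.1 r.2) := by
      ext r
      simp only [mem_filter, ne_comm]
    rw [h3] at h2
    exact_mod_cast h2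
  have e3 : (1 - ε - η) * k * ((d : ℝ) + d') / 2 ≤ (SSE.lost G H : ℝ) + SSE.lost H G := by
    by_cases hp : p
    · have hq : ¬ q := fun h => (hpq.1 h) hp
      have := SSE.differ hd3' hd3 hkV ε η hε hη hεη (hd4' hq) (hd5 hp)
      linarith
    · have hq : q := hpq.2 hp
      exact SSE.differ hd3 hd3' hkV ε η hε hη hεη (hd4 hp) (hd5' hq)
  have hg : 0 ≤ (1 - ε - η) * k := mul_nonneg (by linarith) (Nat.cast_nonneg _)
  have e4 : (1 - ε - η) * k * (κ * D + κ * D) ≤ (1 - ε - η) * k * ((d : ℝ) + d') :=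
    mul_le_mul_of_nonneg_left (by linarith) hg
  linarith

theorem SseRight.pos {D k : ℕ} {ε η κ : ℝ} {p : Prop} {G : SimpleGraph V}
    {a : V → Fin D → Option V} (h : SseRight ε η κ k p G a) (hV : 0 < Fintype.card V) : 0 < D := by
  obtain ⟨h1, d, hd1, -, hd3, -⟩ := h
  obtain ⟨v⟩ := Fintype.card_pos_iff.1 hV
  have h2 := hd3 v
  have h3 : 0 < (univ.filter fun w => G.Adj v w).card := by omega
  obtain ⟨w, hw⟩ := card_pos.1 h3
  rw [mem_filter] at hw
  obtain ⟨j, -⟩ := (h1.1 v w).1 hw.2
  exact lt_of_le_of_lt (Nat.zero_le _) j.isLt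

/-- The general bound: entries that are functions of `s` functions of average sensitivity at most
`A`. -/
theorem sse_main {N D k s : ℕ} {ε η κ γ A : ℝ} (hε : 0 ≤ ε) (hη : 0 ≤ η) (hεη : ε + η < 1)
    (hκ : 0 ≤ κ) (hγ : 0 < γ) (hk : 1 ≤ k) (hkV : k ≤ Fintype.card V)
    (G : (Fin N → Bool) → SimpleGraph V) (f : V → Fin D → Fin s → (Fin N → Bool) → Bool)
    (dec : V → Fin D → (Fin s → Bool) → Option V) (hf : ∀ u j i, tsens (f u j i) ≤ 2 ^ N * A)
    (hA : (1 / 2 + γ) * 2 ^ N ≤ ((univ.filter fun x : Fin N → Bool =>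
      SseRight ε η κ k (Odd (univ.filter fun i => x i = true).card) (G x)
        (fun u j => dec u j fun i => f u j i x)).card : ℝ)) :
    (1 - ε - η) * κ * γ * (k / Fintype.card V) * N ≤ s * A := by
  have hV : 0 < Fintype.card V := by omega
  have h1 := pairs_main (R := V × Fin D) (fun x r => dec r.1 r.2 fun i => f r.1 r.2 i x)
    (fun x => SseRight ε η κ k (Odd (univ.filter fun i => x i = true).card) (G x)
        (fun u j => dec u j fun i => f u j i x)) ((1 - ε - η) * κ * k * D / 2) (s * A) γ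
    (by
      have : 0 ≤ 1 - ε - η := by linarith
      positivity)
    (fun x i hx hy => by
      have h2 := sse_pair hε hη hεη hkV (SSE.odd_flip i x) hx hy
      convert h2) hA
    (fun r => by
      have h1 := fun_tsens (f r.1 r.2) (2 ^ N * A) (hf r.1 r.2) (dec r.1 r.2)
      have h2 : (s : ℝ) * (2 ^ N * A) = s * A * 2 ^ N := by ring
      rw [h2] at h1
      convert h1)
  -- some instance is right, so there are entries
  have hex : ∃ x : Fin N → Bool, SseRight ε η κ k (Odd (univ.filter fun i => x i = true).card) (G x)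
      (fun u j => dec u j fun i => f u j i x) := by
    by_contra hcon
    push Not at hcon
    rw [filter_false_of_mem fun x _ => hcon x, card_empty, Nat.cast_zero] at hA
    have : (0 : ℝ) < (1 / 2 + γ) * 2 ^ N := by positivity
    linarith
  obtain ⟨x, hx⟩ := hex
  have hD : (0 : ℝ) < D := by exact_mod_cast hx.pos hV
  have hV' : (0 : ℝ) < Fintype.card V := by exact_mod_cast hV
  rw [Fintype.card_prod, Fintype.card_fin] at h1
  push_cast at h1
  have h2 : ((1 - ε - η) * κ * γ * (k / Fintype.card V) * N) * (Fintype.card V * D) ≤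
      (s * A) * (Fintype.card V * D) := by
    have h3 : ((1 - ε - η) * κ * γ * (k / Fintype.card V) * N) * (Fintype.card V * D) =
        2 * γ * N * ((1 - ε - η) * κ * k * D / 2) := by
      field_simp
    rw [h3]
    linarith
  exact le_of_mul_le_mul_right h2 (by positivity)

/-- The worst case bound for reductions with few negations. -/
theorem sse_stair {N D k b t : ℕ} {ε η κ : ℝ} (hε : 0 ≤ ε) (hη : 0 ≤ η) (hεη : ε + η < 1)
    (hk : 1 ≤ k) (hkV : k ≤ Fintype.card V)
    (G : (Fin N → Bool) → SimpleGraph V) (f : V → Fin D → Fin b → (Fin N → Bool) → Bool)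
    (dec : V → Fin D → (Fin b → Bool) → Option V) (hf : ∀ u j i, NegComp t (f u j i))
    (hA : ∀ j ≤ N, SseRight ε η κ k (Odd (univ.filter fun i => stair N j i = true).card)
      (G (stair N j)) (fun u l => dec u l fun i => f u l i (stair N j))) :
    (1 - ε - η) * κ * (k / Fintype.card V) * N ≤ 2 * b * (2 ^ (t + 1) - 1) := by
  have hV : 0 < Fintype.card V := by omega
  have h1 := stair_pairs (R := V × Fin D) (N := N)
    (fun x r => dec r.1 r.2 fun i => f r.1 r.2 i x) ((1 - ε - η) * κ * k * D / 2)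
    (b * (2 ^ (t + 1) - 1))
    (fun j hj => by
      have h2 : (Odd (univ.filter fun i => stair N (j + 1) i = true).card) ↔
          ¬ Odd (univ.filter fun i => stair N j i = true).card := by
        rw [stair_ones N j hj.le, stair_ones N (j + 1) hj, Nat.odd_add_one]
      have h3 := sse_pair hε hη hεη hkV h2 (hA j hj.le) (hA (j + 1) hj)
      convert h3)
    (fun r => by
      have h1 : ((range N).filter fun j => dec r.1 r.2 (fun i => f r.1 r.2 i (stair N (j + 1))) ≠
          dec r.1 r.2 (fun i => f r.1 r.2 i (stair N j))) ⊆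
          (univ : Finset (Fin b)).biUnion fun i =>
            (range N).filter fun j => f r.1 r.2 i (stair N (j + 1)) ≠ f r.1 r.2 i (stair N j) := by
        intro j hj
        rw [mem_filter] at hj
        rw [mem_biUnion]
        by_contra hcon
        push Not at hcon
        apply hj.2
        congr 1
        funext i
        have := hcon i (mem_univ _)
        rw [mem_filter] at this
        push Not at this
        exact this hj.1
      have h2 : ((range N).filter fun j => dec r.1 r.2 (fun i => f r.1 r.2 i (stair N (j + 1))) ≠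
          dec r.1 r.2 (fun i => f r.1 r.2 i (stair N j))).card ≤ b * (2 ^ (t + 1) - 1) := by
        refine (card_le_card h1).trans (card_biUnion_le.trans ?_)
        calc ∑ i, ((range N).filter fun j => f r.1 r.2 i (stair N (j + 1)) ≠
              f r.1 r.2 i (stair N j)).card ≤
              ∑ _i : Fin b, (2 ^ (t + 1) - 1) := by
              refine sum_le_sum fun i _ => ?_
              obtain ⟨l, hl, hmem⟩ := hf r.1 r.2 i
              obtain ⟨K', _, hK, k', d, hk', hd⟩ := hl.det _ hmem
              have h3 : ((range N).filter fun j => f r.1 r.2 i (stair N (j + 1)) ≠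
                  f r.1 r.2 i (stair N j)).card ≤ Fintype.card K' := by
                convert det_chain k' hk' _ d hd (stair N) (stair_mono N) N
              omega
          _ = _ := by rw [sum_const, card_univ, Fintype.card_fin, smul_eq_mul]
      convert h2)
  have hD : (0 : ℝ) < D := by exact_mod_cast (hA 0 (Nat.zero_le _)).pos hV
  have hV' : (0 : ℝ) < Fintype.card V := by exact_mod_cast hV
  have hb : (((b * (2 ^ (t + 1) - 1) : ℕ)) : ℝ) = b * (2 ^ (t + 1) - 1) := by
    have : 1 ≤ 2 ^ (t + 1) := Nat.one_le_two_pow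
    push_cast [Nat.cast_sub this]
    ring
  rw [Fintype.card_prod, Fintype.card_fin, hb] at h1
  push_cast at h1
  have h2 : ((1 - ε - η) * κ * (k / Fintype.card V) * N) * (Fintype.card V * D) ≤
      (2 * b * (2 ^ (t + 1) - 1)) * (Fintype.card V * D) := by
    have h3 : ((1 - ε - η) * κ * (k / Fintype.card V) * N) * (Fintype.card V * D) =
        2 * (N * ((1 - ε - η) * κ * k * D / 2)) := by
      field_simp
    rw [h3]
    linarith
  exact le_of_mul_le_mul_right h2 (by positivity)

end sse

/-! ### Classes of functions of small average sensitivity -/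

section classes

variable {N : ℕ}

theorem unate_tsens {f : (Fin N → Bool) → Bool} (hf : Unate f) : tsens f ≤ 2 ^ N * √N := by
  have := unate_sum f hf
  rw [Fintype.card_fin] at this
  exact this

theorem form_tsens (F : DeMorgan (Fin N)) : tsens (fun x => F.eval x) ≤ 2 ^ N * √F.size := by
  have := sum_sens_le F
  rw [Fintype.card_fin] at this
  exact this

theorem neg_tsens {t : ℕ} {f : (Fin N → Bool) → Bool} (hf : NegComp t f) :
    tsens f ≤ 2 ^ N * ((2 ^ (t + 1) - 1) * √N) := by
  obtain ⟨l, hl, hmem⟩ := hf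
  obtain ⟨K', _, hK, k, d, hk, hd⟩ := hl.det _ hmem
  have h3 := det_sum k (fun j => Monotone.unate (hk j)) _ d hd
  have h4 : (Fintype.card K' : ℝ) = 2 ^ (t + 1) - 1 := by
    have : (Fintype.card K' : ℝ) + 1 = 2 ^ (t + 1) := by exact_mod_cast hK
    linarith
  rw [h4] at h3
  unfold tsens
  calc _ ≤ _ := h3
    _ = _ := by ring

end classes

end Pool.Agent.X246.ACR
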