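import Pool.Agent.X246.ACR.Thr

set_option autoImplicit false

/-!
# The average sensitivity of polynomial threshold functions
-/

namespace Pool.Agent.X246.ACR

open Finset Pool.Agent.Y601

open scoped Classical

section deg

variable {I : Type} [DecidableEq I]

/-- the discrete derivative -/
def deriv (i : I) (p : (I → Bool) → ℝ) (x : I → Bool) : ℝ :=
  p (Function.update x i true) - p (Function.update x i false)

/-- real functions on the cube of degree at most `k` -/
def Deg : ℕ → ((I → Bool) → ℝ) → Prop
  | 0, p => ∀ x y, p x = p y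
  | k + 1, p => ∀ i, Deg k (deriv i p)

theorem Deg.add {k : ℕ} : ∀ {p q : (I → Bool) → ℝ}, Deg k p → Deg k q → Deg k fun x => p x + q x := by
  induction k with
  | zero => intro p q hp hq x y; show p x + q x = p y + q y; rw [hp x y, hq x y]
  | succ k ih =>
    intro p q hp hq i
    have := ih (hp i) (hq i)
    convert this using 1
    funext x
    unfold deriv
    ring

theorem Deg.smul {k : ℕ} (c : ℝ) : ∀ {p : (I → Bool) → ℝ}, Deg k p → Deg k fun x => c * p x := by
  induction k with
  | zero => intro p hp x y; show c * p x = c * p y; rw [hp x y]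
  | succ k ih =>
    intro p hp i
    have := ih (hp i)
    convert this using 1
    funext x
    unfold deriv
    ring

theorem Deg.zero_fun (k : ℕ) : Deg k (fun _ : I → Bool => (0 : ℝ)) := by
  induction k with
  | zero => intro x y; rfl
  | succ k ih =>
    intro i
    convert ih using 1
    funext x
    unfold deriv
    ring

theorem Deg.sum {k : ℕ} {J : Type} (S : Finset J) (p : J → (I → Bool) → ℝ)
    (h : ∀ j ∈ S, Deg k (p j)) : Deg k fun x => ∑ j ∈ S, p j x := by
  induction S using Finset.induction_on with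
  | empty => simpa using Deg.zero_fun k
  | insert a S ha ih =>
    have h1 := (h a (mem_insert_self a S)).add (ih fun j hj => h j (mem_insert_of_mem hj))
    convert h1 using 1
    funext x
    rw [sum_insert ha]

/-- the product of the bits in `S` -/
def mono (S : Finset I) (x : I → Bool) : ℝ := ∏ i ∈ S, if x i = true then 1 else 0

theorem deg_mono {k : ℕ} : ∀ S : Finset I, S.card ≤ k → Deg k (mono S) := by
  induction k with
  | zero =>
    intro S hS x y
    have : S = ∅ := card_eq_zero.1 (Nat.le_zero.1 hS)
    unfold mono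
    rw [this, prod_empty, prod_empty]
  | succ k ih =>
    intro S hS i
    by_cases hi : i ∈ S
    · have h1 := ih (S.erase i) (by rw [card_erase_of_mem hi]; omega)
      convert h1 using 1
      funext x
      unfold deriv mono
      rw [← mul_prod_erase S _ hi, ← mul_prod_erase S _ hi, Function.update_self,
        Function.update_self]
      have h2 : ∀ b : Bool, ∏ j ∈ S.erase i, (if Function.update x i b j = true then (1 : ℝ) else 0) =
          ∏ j ∈ S.erase i, (if x j = true then (1 : ℝ) else 0) := by
        intro b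
        refine prod_congr rfl fun j hj => ?_
        rw [Function.update_of_ne (ne_of_mem_erase hj)]
      rw [h2, h2]
      simp
    · have h1 := Deg.zero_fun (I := I) k
      convert h1 using 1
      funext x
      unfold deriv mono
      have h2 : ∀ b : Bool, ∏ j ∈ S, (if Function.update x i b j = true then (1 : ℝ) else 0) =
          ∏ j ∈ S, (if x j = true then (1 : ℝ) else 0) := by
        intro b
        refine prod_congr rfl fun j hj => ?_
        have : j ≠ i := fun h => hi (h ▸ hj)
        rw [Function.update_of_ne this]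
      rw [h2, h2, sub_self]

/-- Polynomials of degree at most `k`. -/
theorem deg_eval (P : MvPolynomial I ℝ) (k : ℕ) (hP : P.totalDegree ≤ k) :
    Deg k fun x : I → Bool => MvPolynomial.eval (fun i => if x i = true then (1 : ℝ) else 0) P := by
  have h1 : (fun x : I → Bool => MvPolynomial.eval (fun i => if x i = true then (1 : ℝ) else 0) P) =
      fun x => ∑ μ ∈ P.support, P.coeff μ * mono μ.support x := by
    funext x
    rw [MvPolynomial.eval_eq]
    refine sum_congr rfl fun μ _ => ?_
    congr 1
    unfold mono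
    refine prod_congr rfl fun i hi => ?_
    have : μ i ≠ 0 := Finsupp.mem_support_iff.1 hi
    cases x i
    · simp [this]
    · simp
  rw [h1]
  refine Deg.sum _ _ fun μ hμ => (deg_mono _ ?_).smul _
  refine le_trans ?_ ((MvPolynomial.le_totalDegree hμ).trans hP)
  rw [Finsupp.sum]
  calc μ.support.card = ∑ i ∈ μ.support, 1 := by simp
    _ ≤ _ := sum_le_sum fun i hi => Nat.one_le_iff_ne_zero.2 (Finsupp.mem_support_iff.1 hi)

/-- Polynomial threshold functions of degree `k`. -/
def PTF (k : ℕ) (f : (I → Bool) → Bool) : Prop :=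
  ∃ p : (I → Bool) → ℝ, Deg k p ∧ ∀ x, f x = true ↔ 0 ≤ p x

end deg

section sens

variable {N : ℕ}

/-- the value `1` or `-1` -/
noncomputable def pm (b : Bool) : ℝ := if b = true then 1 else -1

theorem pm_sq (b : Bool) : pm b * pm b = 1 := by
  unfold pm
  cases b <;> norm_num

theorem abs_pm_sub (a b : Bool) : |pm a - pm b| = 2 * if a ≠ b then 1 else 0 := by
  unfold pm
  cases a <;> cases b <;> norm_num

/-- the sum of the sensitivities over all inputs -/
noncomputable def tsens (f : (Fin N → Bool) → Bool) : ℝ :=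
  ∑ x : Fin N → Bool, ((univ.filter fun i => f (SSE.flip i x) ≠ f x).card : ℝ)

theorem tsens_eq (f : (Fin N → Bool) → Bool) :
    tsens f = ∑ i, ∑ x : Fin N → Bool, if f (SSE.flip i x) ≠ f x then (1 : ℝ) else 0 := by
  unfold tsens
  simp_rw [card_filter]
  push_cast
  rw [sum_comm]

theorem deriv_flip (p : (Fin N → Bool) → ℝ) (i : Fin N) (x : Fin N → Bool) :
    deriv i p (SSE.flip i x) = deriv i p x := by
  unfold deriv SSE.flip
  simp

theorem ptf_step (k : ℕ) (c : ℝ) (hc : ∀ g : (Fin N → Bool) → Bool, PTF k g → tsens g ≤ 2 ^ N * c)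
    (f : (Fin N → Bool) → Bool) (hf : PTF (k + 1) f) : tsens f ≤ 2 ^ N * √(N * (1 + c)) := by
  obtain ⟨p, hp, hfp⟩ := hf
  obtain ⟨g, hg⟩ : ∃ g : Fin N → (Fin N → Bool) → Bool, g = fun i x => decide (0 ≤ deriv i p x) :=
    ⟨_, rfl⟩
  have hgP : ∀ i, PTF k (g i) := fun i => ⟨deriv i p, hp i, fun x => by rw [hg]; simp⟩
  have hgf : ∀ i x, g i (SSE.flip i x) = g i x := by
    intro i x
    rw [hg]
    simp only [deriv_flip]
  -- the influence as a correlation
  have h1 : ∀ (i : Fin N) (x : Fin N → Bool), f (SSE.flip i x) ≠ f x →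
      pm (f x) * (chi i x * pm (g i x)) = 1 := by
    intro i x hne
    have h2 : deriv i p x = chi i x * (p x - p (SSE.flip i x)) := by
      unfold deriv chi SSE.flip
      cases hx : x i
      · have e1 : Function.update x i false = x := by
          rw [← hx]; exact Function.update_eq_self i x
        rw [e1]
        simp
      · have e1 : Function.update x i true = x := by
          rw [← hx]; exact Function.update_eq_self i x
        rw [e1]
        simp
    have h3 : (0 ≤ p x ∧ p (SSE.flip i x) < 0) ∨ (p x < 0 ∧ 0 ≤ p (SSE.flip i x)) := by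
      rcases lt_or_ge (p x) 0 with h | h
      · right
        refine ⟨h, ?_⟩
        by_contra hcon
        apply hne
        have e1 : f x = false := by
          rw [← Bool.not_eq_true, hfp]; exact not_le.2 h
        have e2 : f (SSE.flip i x) = false := by
          rw [← Bool.not_eq_true, hfp]; exact hcon
        rw [e1, e2]
      · left
        refine ⟨h, ?_⟩
        by_contra hcon
        apply hne
        rw [(hfp x).2 h, (hfp _).2 (not_lt.1 hcon)]
    have h4 : pm (g i x) = if 0 ≤ deriv i p x then 1 else -1 := by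
      rw [hg]
      unfold pm
      simp
    have h5 : pm (f x) = if 0 ≤ p x then 1 else -1 := by
      unfold pm
      simp only [hfp x]
    rw [h4, h5, h2]
    unfold chi
    rcases h3 with ⟨ha, hb⟩ | ⟨ha, hb⟩
    · rw [if_pos ha]
      by_cases hx : x i = true
      · rw [if_pos hx, if_pos (by linarith)]
        norm_num
      · rw [if_neg hx, if_neg (by linarith)]
        norm_num
    · rw [if_neg (not_le.2 ha)]
      by_cases hx : x i = true
      · rw [if_pos hx, if_neg (by linarith)]
        norm_num
      · rw [if_neg hx, if_pos (by linarith)]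
        norm_num
  have h2 : ∀ i : Fin N, (∑ x : Fin N → Bool, if f (SSE.flip i x) ≠ f x then (1 : ℝ) else 0) =
      ∑ x : Fin N → Bool, pm (f x) * (chi i x * pm (g i x)) := by
    intro i
    have e1 := sum_flip i fun x : Fin N → Bool => pm (f x) * (chi i x * pm (g i x))
    simp only [chi_flip_self, hgf] at e1
    have e2 : ∀ x : Fin N → Bool, (if f (SSE.flip i x) ≠ f x then (1 : ℝ) else 0) =
        1 / 2 * (pm (f x) * (chi i x * pm (g i x)) + pm (f (SSE.flip i x)) * (-chi i x * pm (g i x))) := by
      intro x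
      by_cases hne : f (SSE.flip i x) ≠ f x
      · rw [if_pos hne]
        have e3 := h1 i x hne
        have e4 : pm (f (SSE.flip i x)) = -pm (f x) := by
          unfold pm
          revert hne
          cases f (SSE.flip i x) <;> cases f x <;> simp
        rw [e4]
        linarith
      · rw [if_neg hne]
        have e3 : f (SSE.flip i x) = f x := not_not.1 hne
        rw [e3]
        ring
    simp_rw [e2]
    rw [← mul_sum, sum_add_distrib, e1]
    ring
  have h3 : tsens f = ∑ x : Fin N → Bool, pm (f x) * ∑ i, chi i x * pm (g i x) := by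
    rw [tsens_eq]
    simp_rw [h2]
    rw [sum_comm]
    exact sum_congr rfl fun x _ => by rw [mul_sum]
  have h4 : tsens f ≤ ∑ x : Fin N → Bool, |∑ i, chi i x * pm (g i x)| := by
    rw [h3]
    refine sum_le_sum fun x _ => ?_
    unfold pm
    split_ifs
    · rw [one_mul]; exact le_abs_self _
    · rw [neg_one_mul]; exact neg_le_abs _
  -- the second moment
  have h5 : ∀ i j : Fin N, ∑ x : Fin N → Bool, (chi i x * pm (g i x)) * (chi j x * pm (g j x)) ≤
      (if i = j then 2 ^ N else 0) +
        ∑ x : Fin N → Bool, if g i (SSE.flip j x) ≠ g i x then (1 : ℝ) else 0 := by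
    intro i j
    have h0 : (0 : ℝ) ≤ ∑ x : Fin N → Bool, if g i (SSE.flip j x) ≠ g i x then (1 : ℝ) else 0 :=
      sum_nonneg fun x _ => by split_ifs <;> norm_num
    by_cases hij : i = j
    · subst hij
      rw [if_pos rfl]
      have e1 : ∀ x : Fin N → Bool, (chi i x * pm (g i x)) * (chi i x * pm (g i x)) = 1 := by
        intro x
        calc (chi i x * pm (g i x)) * (chi i x * pm (g i x)) =
            (chi i x * chi i x) * (pm (g i x) * pm (g i x)) := by ring
          _ = 1 := by rw [chi_sq, pm_sq, one_mul]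
      simp_rw [e1]
      rw [sum_const, card_univ, Fintype.card_fun, Fintype.card_bool, Fintype.card_fin, nsmul_eq_mul]
      push_cast
      linarith
    · rw [if_neg hij, zero_add]
      have e1 := sum_flip j fun x : Fin N → Bool => (chi i x * pm (g i x)) * (chi j x * pm (g j x))
      simp only [chi_flip_self, hgf, chi_flip_ne hij] at e1
      have e2 : ∑ x : Fin N → Bool, (chi i x * pm (g i x)) * (chi j x * pm (g j x)) =
          1 / 2 * ∑ x : Fin N → Bool, (chi i x * chi j x * pm (g j x)) *
            (pm (g i x) - pm (g i (SSE.flip j x))) := by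
        have e3 : ∑ x : Fin N → Bool, (chi i x * chi j x * pm (g j x)) *
            (pm (g i x) - pm (g i (SSE.flip j x))) =
            ∑ x : Fin N → Bool, (chi i x * pm (g i x)) * (chi j x * pm (g j x)) +
            ∑ x : Fin N → Bool, (chi i x * pm (g i (SSE.flip j x))) * (-chi j x * pm (g j x)) := by
          rw [← sum_add_distrib]
          exact sum_congr rfl fun x _ => by ring
        rw [e3, e1]
        ring
      rw [e2, mul_sum]
      refine sum_le_sum fun x _ => ?_
      have e4 : |chi i x * chi j x * pm (g j x)| = 1 := by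
        rw [abs_mul, abs_mul]
        have a1 : ∀ i : Fin N, |chi i x| = 1 := by
          intro i
          unfold chi
          split_ifs <;> norm_num
        have a2 : |pm (g j x)| = 1 := by
          unfold pm
          split_ifs <;> norm_num
        rw [a1, a1, a2]
        norm_num
      have e5 := le_abs_self ((chi i x * chi j x * pm (g j x)) *
        (pm (g i x) - pm (g i (SSE.flip j x))))
      rw [abs_mul, e4, one_mul, abs_pm_sub] at e5
      have e6 : (if g i x ≠ g i (SSE.flip j x) then (1 : ℝ) else 0) =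
          if g i (SSE.flip j x) ≠ g i x then (1 : ℝ) else 0 := by
        simp only [ne_comm]
      rw [e6] at e5
      linarith
  have h6 : ∑ x : Fin N → Bool, (∑ i, chi i x * pm (g i x)) ^ 2 ≤ N * (2 ^ N * (1 + c)) := by
    have e1 : ∀ x : Fin N → Bool, (∑ i, chi i x * pm (g i x)) ^ 2 =
        ∑ i, ∑ j, (chi i x * pm (g i x)) * (chi j x * pm (g j x)) := by
      intro x
      rw [sq, sum_mul_sum]
    simp_rw [e1]
    rw [sum_comm]
    calc ∑ i, ∑ x : Fin N → Bool, ∑ j, (chi i x * pm (g i x)) * (chi j x * pm (g j x))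
        = ∑ i, ∑ j, ∑ x : Fin N → Bool, (chi i x * pm (g i x)) * (chi j x * pm (g j x)) :=
          sum_congr rfl fun i _ => sum_comm
      _ ≤ ∑ i, ∑ j, ((if i = j then 2 ^ N else 0) +
            ∑ x : Fin N → Bool, if g i (SSE.flip j x) ≠ g i x then (1 : ℝ) else 0) :=
          sum_le_sum fun i _ => sum_le_sum fun j _ => h5 i j
      _ = ∑ i, ((2 : ℝ) ^ N + tsens (g i)) := by
          refine sum_congr rfl fun i _ => ?_
          rw [sum_add_distrib, tsens_eq, sum_ite_eq]
          simp
      _ ≤ ∑ _i : Fin N, (2 ^ N + 2 ^ N * c) := by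
          refine sum_le_sum fun i _ => ?_
          have := hc (g i) (hgP i)
          linarith
      _ = _ := by
          rw [sum_const, card_univ, Fintype.card_fin, nsmul_eq_mul]
          ring
  have h7 := sq_sum_le_card_mul_sum_sq (s := (univ : Finset (Fin N → Bool)))
    (f := fun x => |∑ i, chi i x * pm (g i x)|)
  simp_rw [sq_abs] at h7
  rw [card_univ, Fintype.card_fun, Fintype.card_bool, Fintype.card_fin] at h7
  push_cast at h7
  have hnn : 0 ≤ (N : ℝ) * (1 + c) := by
    have e1 : (0 : ℝ) ≤ ∑ x : Fin N → Bool, (∑ i, chi i x * pm (g i x)) ^ 2 :=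
      sum_nonneg fun x _ => sq_nonneg _
    have e2 := e1.trans h6
    have e3 : (0 : ℝ) < 2 ^ N := by positivity
    by_contra hcon
    push Not at hcon
    have : N * (2 ^ N * (1 + c)) = 2 ^ N * (N * (1 + c)) := by ring
    rw [this] at e2
    nlinarith
  refine h4.trans ?_
  refine le_of_sq_le_sq ?_ (by positivity)
  refine h7.trans ?_
  rw [mul_pow, Real.sq_sqrt hnn]
  have e3 : (0 : ℝ) ≤ 2 ^ N := by positivity
  calc (2 : ℝ) ^ N * ∑ x : Fin N → Bool, (∑ i, chi i x * pm (g i x)) ^ 2
      ≤ 2 ^ N * (N * (2 ^ N * (1 + c))) := mul_le_mul_of_nonneg_left h6 e3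
    _ = _ := by ring

/-- A polynomial threshold function of degree `k` has average sensitivity at most
`2 N ^ (1 - 2 ^ (-k))`. -/
theorem ptf_sens (hN : 1 ≤ N) (k : ℕ) : ∀ f : (Fin N → Bool) → Bool, PTF k f →
    tsens f ≤ 2 ^ N * (2 * (N : ℝ) ^ (1 - 1 / 2 ^ k : ℝ)) := by
  have hN' : (1 : ℝ) ≤ N := by exact_mod_cast hN
  induction k with
  | zero =>
    rintro f ⟨p, hp, hf⟩
    have h1 : ∀ x y, f x = f y := by
      intro x y
      rw [Bool.eq_iff_iff, hf, hf, hp x y]
    have h2 : tsens f = 0 := by
      unfold tsens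
      refine sum_eq_zero fun x _ => ?_
      rw [Nat.cast_eq_zero, card_eq_zero]
      exact filter_eq_empty_iff.2 fun i _ h => h (h1 _ _)
    rw [h2]
    positivity
  | succ k ih =>
    intro f hf
    refine (ptf_step k _ ih f hf).trans ?_
    apply mul_le_mul_of_nonneg_left _ (by positivity)
    rw [Real.sqrt_le_left (by positivity)]
    have h2k : (1 : ℝ) ≤ 2 ^ k := one_le_pow₀ (by norm_num)
    have h1 : (2 * (N : ℝ) ^ (1 - 1 / 2 ^ (k + 1) : ℝ)) ^ 2 = 4 * (N : ℝ) ^ (2 - 1 / 2 ^ k : ℝ) := by
      rw [mul_pow, ← Real.rpow_natCast ((N : ℝ) ^ _) 2, ← Real.rpow_mul (by positivity)]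
      have : (1 - 1 / 2 ^ (k + 1) : ℝ) * ((2 : ℕ) : ℝ) = 2 - 1 / 2 ^ k := by
        rw [pow_succ]
        field_simp
        push_cast
        ring
      rw [this]
      norm_num
    rw [h1]
    have h2 : (N : ℝ) * (N : ℝ) ^ (1 - 1 / 2 ^ k : ℝ) = (N : ℝ) ^ (2 - 1 / 2 ^ k : ℝ) := by
      rw [← Real.rpow_one_add' (by positivity)]
      · congr 1
        ring
      · have : (1 : ℝ) / 2 ^ k ≤ 1 := by
          rw [div_le_one (by positivity)]
          exact h2k
        intro h
        linarith
    have h3 : (N : ℝ) ≤ (N : ℝ) ^ (2 - 1 / 2 ^ k : ℝ) := by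
      conv_lhs => rw [← Real.rpow_one (N : ℝ)]
      apply Real.rpow_le_rpow_of_exponent_le hN'
      have : (1 : ℝ) / 2 ^ k ≤ 1 := by
        rw [div_le_one (by positivity)]
        exact h2k
      linarith
    calc (N : ℝ) * (1 + 2 * (N : ℝ) ^ (1 - 1 / 2 ^ k : ℝ)) =
        N + 2 * (N * (N : ℝ) ^ (1 - 1 / 2 ^ k : ℝ)) := by ring
      _ = N + 2 * (N : ℝ) ^ (2 - 1 / 2 ^ k : ℝ) := by rw [h2]
      _ ≤ _ := by
        have : (0 : ℝ) ≤ (N : ℝ) ^ (2 - 1 / 2 ^ k : ℝ) := by positivity
        linarith

/-- A function of `s` functions of total sensitivity at most `T`. -/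
theorem fun_tsens {s : ℕ} {β : Type} (k : Fin s → (Fin N → Bool) → Bool) (T : ℝ)
    (hk : ∀ j, tsens (k j) ≤ T) (d : (Fin s → Bool) → β) :
    ∑ x : Fin N → Bool, ((univ.filter fun i => d (fun j => k j (SSE.flip i x)) ≠
      d (fun j => k j x)).card : ℝ) ≤ s * T := by
  have h1 : ∀ x : Fin N → Bool, ((univ.filter fun i => d (fun j => k j (SSE.flip i x)) ≠
      d (fun j => k j x)).card : ℝ) ≤
      ∑ j, ((univ.filter fun i => k j (SSE.flip i x) ≠ k j x).card : ℝ) := by
    intro x
    have h2 : (univ.filter fun i => d (fun j => k j (SSE.flip i x)) ≠ d (fun j => k j x)) ⊆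
        (univ : Finset (Fin s)).biUnion fun j =>
        univ.filter fun i => k j (SSE.flip i x) ≠ k j x := by
      intro i hi
      rw [mem_filter] at hi
      rw [mem_biUnion]
      by_contra hcon
      push Not at hcon
      apply hi.2
      congr 1
      funext j
      have := hcon j (mem_univ _)
      rw [mem_filter] at this
      push Not at this
      exact this (mem_univ _)
    exact_mod_cast (card_le_card h2).trans card_biUnion_le
  refine (sum_le_sum fun x _ => h1 x).trans ?_
  rw [sum_comm]
  calc ∑ j, ∑ x : Fin N → Bool, ((univ.filter fun i => k j (SSE.flip i x) ≠ k j x).card : ℝ) ≤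
        ∑ _j : Fin s, T := sum_le_sum fun j _ => hk j
    _ = _ := by rw [sum_const, card_univ, Fintype.card_fin, nsmul_eq_mul]

/-- The bound for reductions with functions of average sensitivity at most `A`. -/
theorem tsens_avg {R K L : Type} [Fintype R] {sat : L → K → Prop} {ε δ κ γ A : ℝ} (hε : 0 ≤ ε)
    (hδ : 0 ≤ δ) (hεδ : ε + δ < 1)
    (hκ : 0 ≤ κ) (hγ : 0 < γ) {s : ℕ} (k : R → Fin s → (Fin N → Bool) → Bool)
    (hk : ∀ r j, tsens (k r j) ≤ 2 ^ N * A) (dec : R → (Fin s → Bool) → Option K)
    (hA : (1 / 2 + γ) * 2 ^ N ≤ ((univ.filter fun x =>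
      Correct sat ε δ (fun x r => dec r fun j => k r j x) x ∧
        κ * Fintype.card R ≤ total (fun r => dec r fun i => k r i x)).card : ℝ)) :
    2 * (1 - ε - δ) * κ * γ * N ≤ s * A := by
  refine avg_main (B := s * A) hε hδ hεδ hκ hγ (fun x r => dec r fun j => k r j x) hA
    (fun r => ?_)
  have h1 := fun_tsens (k r) (2 ^ N * A) (hk r) (dec r)
  have h2 : (s : ℝ) * (2 ^ N * A) = s * A * 2 ^ N := by ring
  rw [h2] at h1
  convert h1

end sens

end Pool.Agent.X246.ACR
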