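import Pool.Agent.X246.ACR.NegMain

set_option autoImplicit false

/-!
# Parity with few negations: all inputs, and most inputs
-/

namespace Pool.Agent.X246.ACR

open Finset Pool.Agent.Y601

open scoped Classical

variable {N : ℕ}

/-- The number of the ones of the input. -/
noncomputable def ones (x : Fin N → Bool) : ℕ := (univ.filter fun i => x i = true).card

theorem ones_mono : Monotone (ones : (Fin N → Bool) → ℕ) := by
  intro x y hxy
  refine card_le_card fun i hi => ?_
  rw [mem_filter] at hi ⊢
  refine ⟨mem_univ _, ?_⟩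
  have := hxy i
  rw [hi.2] at this
  exact Bool.eq_true_of_true_le this

theorem ones_le (x : Fin N → Bool) : ones x ≤ N := by
  refine (card_le_univ _).trans ?_
  rw [Fintype.card_fin]

/-- With `t` NOT gates one can compute the parity of all inputs whose number of ones is in a window of
length `2 ^ (t + 1)`. -/
theorem window (t a : ℕ) (ha : Even a) : ∃ f : (Fin N → Bool) → Bool, NegComp t f ∧
    ∀ x, a ≤ ones x → ones x ≤ a + (2 ^ (t + 1) - 1) → (f x = true ↔ Odd (ones x)) := by
  obtain ⟨l', hl', hmem⟩ := parity_chain t 0 [] Circ.nil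
    (fun k (x : Fin N → Bool) => decide (a + k < ones x))
    (fun k _ x y hxy _ => by
      apply Bool.le_iff_imp.2
      rw [decide_eq_true_iff, decide_eq_true_iff]
      intro h
      exact lt_of_lt_of_le h (ones_mono hxy))
    (fun k x => by
      apply Bool.le_iff_imp.2
      rw [decide_eq_true_iff, decide_eq_true_iff]
      intro h
      omega)
  rw [Nat.zero_add] at hl'
  refine ⟨_, ⟨l', hl', hmem⟩, ?_⟩
  intro x h1 h2
  rw [decide_eq_true_iff]
  have h3 : ((range (2 ^ (t + 1) - 1)).filter fun k => decide (a + k < ones x) = true) =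
      range (ones x - a) := by
    ext k
    rw [mem_filter, mem_range, mem_range, decide_eq_true_iff]
    omega
  rw [h3, card_range]
  have h4 : ones x = (ones x - a) + a := by omega
  conv_rhs => rw [h4]
  rw [Nat.odd_add]
  exact ⟨fun h => ⟨fun _ => ha, fun _ => h⟩, fun h => h.2 ha⟩

theorem sum_chi (x : Fin N → Bool) : ∑ i, chi i x = 2 * (ones x : ℝ) - N := by
  unfold chi ones
  have h1 : ∀ i : Fin N, (if x i = true then (1 : ℝ) else -1) =
      2 * (if x i = true then 1 else 0) - 1 := by
    intro i
    split_ifs <;> norm_num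
  simp_rw [h1]
  rw [sum_sub_distrib, ← mul_sum, card_filter]
  push_cast
  simp

/-- With `t` NOT gates one can compute the parity of most inputs. -/
theorem most (t : ℕ) (γ : ℝ) (hγ : γ ≤ 1 / 2) (hN : (N : ℝ) ≤ (1 / 2 - γ) * (2 ^ (t + 1) - 2) ^ 2) :
    ∃ f : (Fin N → Bool) → Bool, NegComp t f ∧
      (1 / 2 + γ) * 2 ^ N ≤ ((univ.filter fun x => (f x = true ↔ Odd (ones x))).card : ℝ) := by
  obtain ⟨n, hn⟩ : ∃ n, n = 2 ^ (t + 1) - 1 := ⟨_, rfl⟩
  have hn1 : 2 ≤ 2 ^ (t + 1) := by
    rw [pow_succ]
    have : 1 ≤ 2 ^ t := Nat.one_le_two_pow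
    omega
  have hnR : (2 : ℝ) ^ (t + 1) - 2 = (n : ℝ) - 1 := by
    rw [hn]
    push_cast [Nat.cast_sub (show 1 ≤ 2 ^ (t + 1) by omega)]
    ring
  obtain ⟨a, ha⟩ : ∃ a, a = 2 * ((N - n) / 4) := ⟨_, rfl⟩
  obtain ⟨f, hf, H⟩ := window (N := N) t a (by rw [ha]; exact even_two_mul _)
  refine ⟨f, hf, ?_⟩
  rw [← hn] at H
  have hcard : (univ : Finset (Fin N → Bool)).card = 2 ^ N := by
    rw [card_univ, Fintype.card_fun, Fintype.card_bool, Fintype.card_fin]
  rcases Nat.lt_or_ge n N with hlt | hge
  · have h1 : (2 : ℝ) ^ N - ((univ.filter fun x => ¬ (f x = true ↔ Odd (ones x))).card : ℝ) =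
        ((univ.filter fun x => (f x = true ↔ Odd (ones x))).card : ℝ) := by
      have h2 := card_filter_add_card_filter_not (s := (univ : Finset (Fin N → Bool)))
        (p := fun x => (f x = true ↔ Odd (ones x)))
      rw [hcard] at h2
      have h3 : ((univ.filter fun x => (f x = true ↔ Odd (ones x))).card : ℝ) +
          ((univ.filter fun x => ¬ (f x = true ↔ Odd (ones x))).card : ℝ) = 2 ^ N := by
        exact_mod_cast h2
      linarith
    have hpos : (0 : ℝ) < (n : ℝ) - 1 := by
      by_contra hcon
      have h2 : (n : ℝ) - 1 = 0 := by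
        have : (1 : ℝ) ≤ n := by
          have : 1 ≤ n := by omega
          exact_mod_cast this
        linarith
      rw [hnR, h2] at hN
      have h3 : (0 : ℝ) < N := by
        have : 0 < N := by omega
        exact_mod_cast this
      norm_num at hN
      linarith
    have h2 : ((univ.filter fun x => ¬ (f x = true ↔ Odd (ones x))).card : ℝ) * ((n : ℝ) - 1) ^ 2 ≤
        N * 2 ^ N := by
      have h3 := sum_sq (I := Fin N)
      rw [Fintype.card_fin] at h3
      rw [← h3, card_filter]
      push_cast
      rw [sum_mul]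
      refine sum_le_sum fun x _ => ?_
      by_cases hx : (f x = true ↔ Odd (ones x))
      · rw [if_neg (not_not.2 hx), zero_mul]
        positivity
      · rw [if_pos hx, one_mul, sum_chi]
        have h4 : ones x < a ∨ a + n < ones x := by
          by_contra hcon
          push Not at hcon
          exact hx (H x hcon.1 hcon.2)
        have h5 : 4 * ((N - n) / 4) ≤ N - n := Nat.mul_div_le _ _
        have h6 : N - n < 4 * ((N - n) / 4) + 4 := by omega
        rcases h4 with h4 | h4
        · have h7 : 2 * ones x + n + 2 ≤ N := by omega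
          have h8 : (2 : ℝ) * ones x + n + 2 ≤ N := by exact_mod_cast h7
          nlinarith
        · have h7 : N + n ≤ 2 * ones x + 1 := by omega
          have h8 : (N : ℝ) + n ≤ 2 * ones x + 1 := by exact_mod_cast h7
          nlinarith
    rw [hnR] at hN
    have h3 : ((univ.filter fun x => ¬ (f x = true ↔ Odd (ones x))).card : ℝ) * ((n : ℝ) - 1) ^ 2 ≤
        ((1 / 2 - γ) * 2 ^ N) * ((n : ℝ) - 1) ^ 2 := by
      refine h2.trans ?_
      have := mul_le_mul_of_nonneg_right hN (by positivity : (0 : ℝ) ≤ 2 ^ N)
      linarith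
    have h4 := le_of_mul_le_mul_right h3 (by positivity)
    rw [← h1]
    linarith
  · have h1 : (univ.filter fun x => (f x = true ↔ Odd (ones x))) = univ := by
      refine filter_true_of_mem fun x _ => H x ?_ ?_
      · rw [ha]; omega
      · have := ones_le x
        omega
    rw [h1, hcard]
    push_cast
    have : (0 : ℝ) < 2 ^ N := by positivity
    nlinarith

end Pool.Agent.X246.ACR
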