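import Pool.Agent.X246.ACR.Core

set_option autoImplicit false

/-!
# Reductions of constant depth from parity to gap problems
-/

namespace Pool.Agent.X246.ACR

open Finset DomAC0 H568R2 Pool.Agent.TH163.AC3 Pool.Agent.Y601

section rnd

variable {I : Type} [Fintype I] [DecidableEq I]

/-- the uniform weight -/
noncomputable def un : Bool → ℝ := fun _ => 1 / 2

theorem un_sum : ∑ a, un a = 1 := by
  rw [Fintype.sum_bool]
  unfold un
  norm_num

theorem un_nonneg (a : Bool) : 0 ≤ un a := by
  unfold un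
  norm_num

theorem Ex_un (F : (I → Bool) → ℝ) : 2 ^ Fintype.card I * Ex un F = ∑ x, F x := by
  unfold Ex un
  rw [mul_sum]
  refine sum_congr rfl fun x _ => ?_
  rw [prod_const, card_univ, ← mul_assoc, ← mul_pow]
  norm_num

theorem ex_ov (q : ℝ) (F : (I → Bool) → ℝ) :
    Ex (wq q) (fun ρ : Restr I => Ex un (fun z => F (ov ρ z))) = Ex un F := by
  rw [← Ex_prod (wq q) un fun ω : I → Option Bool × Bool => F (ov (fun i => (ω i).1) fun i => (ω i).2)]
  refine Ex_push (fun c : Option Bool × Bool => c.1.getD c.2) _ _ ?_ F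
  intro b
  rw [sum_filter, Fintype.sum_prod_type, Fintype.sum_option, Fintype.sum_bool, Fintype.sum_bool,
    Fintype.sum_bool, Fintype.sum_bool]
  cases b <;> simp [wq, un] <;> ring

/-- the star at `i` and the random completion -/
theorem ex_star_ov (q : ℝ) (i : I) (F : (I → Bool) → ℝ) :
    Ex (wq q) (fun ρ : Restr I => Ex un (fun z => if ρ i = none then F (ov ρ z) else 0)) =
      q * Ex un F := by
  classical
  rw [← Ex_prod (wq q) un fun ω : I → Option Bool × Bool =>
    if (ω i).1 = none then F (ov (fun i => (ω i).1) fun i => (ω i).2) else 0]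
  have hw : ∑ c : Option Bool × Bool, (wq q c.1 * un c.2) = 1 := by
    rw [Fintype.sum_prod_type]
    simp_rw [← mul_sum]
    rw [un_sum]
    simp only [mul_one]
    exact wq_sum q
  rw [Ex_resample hw _ i]
  have h1 : (fun ω : I → Option Bool × Bool => ∑ a : Option Bool × Bool, (wq q a.1 * un a.2) *
      (if (Function.update ω i a i).1 = none then F (ov (fun j => (Function.update ω i a j).1)
        fun j => (Function.update ω i a j).2) else 0)) =
      fun ω => q * ∑ b, un b * F (Function.update (ov (fun j => (ω j).1) fun j => (ω j).2) i b) := by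
    funext ω
    rw [Fintype.sum_prod_type, Fintype.sum_option]
    have h2 : ∀ a b, ov (fun j => (Function.update ω i (none, a) j).1)
        (fun j => (Function.update ω i (none, a) j).2) =
        Function.update (ov (fun j => (ω j).1) fun j => (ω j).2) i b ↔ a = b := by
      intro a b
      constructor
      · intro h
        have := congrFun h i
        unfold ov at this
        simpa using this
      · rintro rfl
        funext j
        by_cases hj : j = i
        · subst hj
          simp [ov]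
        · simp [ov, hj]
    have h3 : ∀ c : Bool, ∑ y : Bool, (wq q (some c) * un y) *
        (if (Function.update ω i (some c, y) i).1 = none then
          F (ov (fun j => (Function.update ω i (some c, y) j).1)
            fun j => (Function.update ω i (some c, y) j).2) else 0) = 0 := by
      intro c
      refine sum_eq_zero fun y _ => ?_
      rw [if_neg (by simp), mul_zero]
    rw [Finset.sum_congr rfl fun c _ => h3 c, sum_const_zero, add_zero, mul_sum]
    refine sum_congr rfl fun b _ => ?_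
    rw [if_pos (by simp), (h2 b b).2 rfl]
    show q * un b * _ = _
    ring
  rw [h1, Ex_smul]
  congr 1
  have h4 : (fun ω : I → Option Bool × Bool =>
      ∑ b, un b * F (Function.update (ov (fun j => (ω j).1) fun j => (ω j).2) i b)) =
      fun ω => (fun x : I → Bool => ∑ b, un b * F (Function.update x i b))
        (ov (fun j => (ω j).1) fun j => (ω j).2) := rfl
  rw [h4, Ex_prod (wq q) un fun ω : I → Option Bool × Bool =>
    (fun x : I → Bool => ∑ b, un b * F (Function.update x i b))
        (ov (fun j => (ω j).1) fun j => (ω j).2)]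
  rw [ex_ov q fun x : I → Bool => ∑ b, un b * F (Function.update x i b)]
  exact (Ex_resample un_sum F i).symm

end rnd

section main

open scoped Classical

variable {N : ℕ} {R K L : Type} [Fintype R]

/-- The instance computed by the circuit: the entry `r` is decoded from `b` bits. -/
noncomputable def inst (C : Circuit (Fin N)) {b : ℕ} (out : R → Fin b → Fin N ⊕ Fin C.size)
    (dec : R → (Fin b → Bool) → Option K) (x : Fin N → Bool) : R → Option K :=
  fun r => dec r fun j => C.nodeVal x (out r j)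

/-- The instance for the input `x` is a yes instance if `x` has an even number of ones, and a no
instance otherwise. -/
def Correct (sat : L → K → Prop) (ε δ : ℝ) (Y : (Fin N → Bool) → R → Option K)
    (x : Fin N → Bool) : Prop :=
  1 ≤ total (Y x) ∧
  (¬ Odd (univ.filter fun i => x i = true).card →
    ∃ l, (1 - ε) * total (Y x) ≤ good sat (Y x) l) ∧
  (Odd (univ.filter fun i => x i = true).card → ∀ l, (good sat (Y x) l : ℝ) ≤ δ * total (Y x))

theorem shallow_bound {sat : L → K → Prop} {ε δ : ℝ} (hε : 0 ≤ ε) (hδ : 0 ≤ δ)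
    (C : Circuit (Fin N)) {b : ℕ} (out : R → Fin b → Fin N ⊕ Fin C.size)
    (dec : R → (Fin b → Bool) → Option K) (h : ℕ) (hh : ∀ r j, C.nodeDepth (out r j) ≤ h)
    {s : ℕ} (hs : 1 ≤ s) (ρ : Restr (Fin N)) (hρ : Shallow C s h ρ) :
    (1 - ε - δ) * Ex un (fun z => ∑ i, if ρ i = none then
      (if Correct sat ε δ (inst C out dec) (ov ρ z) ∧
        Correct sat ε δ (inst C out dec) (SSE.flip i (ov ρ z)) then (1 : ℝ) else 0) else 0) ≤
      2 * (b * s) := by
  obtain ⟨J, hJ⟩ : ∃ J : Finset (Fin N), J = univ.filter fun i => ρ i = none := ⟨_, rfl⟩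
  have hJm : ∀ i ∈ J, ρ i = none := fun i hi => by
    rw [hJ, mem_filter] at hi
    exact hi.2
  have h1 := core (sat := sat) hε hδ (fun z => inst C out dec (ov ρ z))
    (fun z => Correct sat ε δ (inst C out dec) (ov ρ z))
    (fun z => Odd (univ.filter fun i => ov ρ z i = true).card) J
    (fun i hi z => by
      rw [SSE.ov_flip ρ i (hJm i hi)]
      exact SSE.odd_flip i (ov ρ z))
    (fun z hz => hz.1) (fun z hz hp => hz.2.1 hp) (fun z hz hp => hz.2.2 hp)
  have h2 : ∀ z, ∑ i ∈ J, frac (inst C out dec (ov ρ z)) (inst C out dec (ov ρ (SSE.flip i z))) ≤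
      b * s := by
    intro z
    refine sum_frac_le (fun z => inst C out dec (ov ρ z)) J z _ (by positivity) fun r => ?_
    have h3 : sens (fun z => inst C out dec (ov ρ z)) J r z ≤ b * s := by
      unfold sens
      have h4 : (J.filter fun i => inst C out dec (ov ρ (SSE.flip i z)) r ≠
          inst C out dec (ov ρ z) r) ⊆ (univ : Finset (Fin b)).biUnion fun j =>
          J.filter fun i => rs (fun x => C.nodeVal x (out r j)) ρ (SSE.flip i z) ≠
            rs (fun x => C.nodeVal x (out r j)) ρ z := by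
        intro i hi
        rw [mem_filter] at hi
        rw [mem_biUnion]
        by_contra hcon
        push Not at hcon
        apply hi.2
        unfold inst
        congr 1
        funext j
        have := hcon j (mem_univ _)
        rw [mem_filter] at this
        push Not at this
        exact this hi.1
      refine (card_le_card h4).trans (card_biUnion_le.trans ?_)
      refine (sum_le_sum fun j _ => SSE.sens_le (node_dt C hs hρ (out r j) (hh r j)) J z).trans ?_
      rw [sum_const, card_univ, Fintype.card_fin, smul_eq_mul]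
    exact_mod_cast h3
  have h5 : ∑ z, ∑ i ∈ J, frac (inst C out dec (ov ρ z)) (inst C out dec (ov ρ (SSE.flip i z))) ≤
      2 ^ N * (b * s) := by
    refine (sum_le_sum fun z _ => h2 z).trans ?_
    rw [sum_const, card_univ, Fintype.card_fun, Fintype.card_bool, Fintype.card_fin, nsmul_eq_mul]
    push_cast
    exact le_rfl
  have h6 := Ex_un (I := Fin N) (fun z => ∑ i, if ρ i = none then
      (if Correct sat ε δ (inst C out dec) (ov ρ z) ∧
        Correct sat ε δ (inst C out dec) (SSE.flip i (ov ρ z)) then (1 : ℝ) else 0) else 0)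
  rw [Fintype.card_fin] at h6
  have h7 : ∑ z : Fin N → Bool, (∑ i, if ρ i = none then
      (if Correct sat ε δ (inst C out dec) (ov ρ z) ∧
        Correct sat ε δ (inst C out dec) (SSE.flip i (ov ρ z)) then (1 : ℝ) else 0) else 0) =
      ∑ z : Fin N → Bool, ∑ i ∈ J, (if Correct sat ε δ (inst C out dec) (ov ρ z) ∧
        Correct sat ε δ (inst C out dec) (ov ρ (SSE.flip i z)) then (1 : ℝ) else 0) := by
    refine sum_congr rfl fun z _ => ?_
    rw [hJ, sum_filter]
    refine sum_congr rfl fun i _ => ?_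
    by_cases hi : ρ i = none
    · rw [if_pos hi, if_pos hi, SSE.ov_flip ρ i hi]
    · rw [if_neg hi, if_neg hi]
  rw [h7] at h6
  have h8 : (0 : ℝ) < 2 ^ N := by positivity
  have h9 : (2 : ℝ) ^ N * ((1 - ε - δ) * Ex un (fun z => ∑ i, if ρ i = none then
      (if Correct sat ε δ (inst C out dec) (ov ρ z) ∧
        Correct sat ε δ (inst C out dec) (SSE.flip i (ov ρ z)) then (1 : ℝ) else 0) else 0)) ≤
      2 ^ N * (2 * (b * s)) := by
    rw [mul_left_comm, h6]
    linarith
  exact le_of_mul_le_mul_left h9 h8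

/-- reductions of small depth: the parameters -/
theorem ac0_core {sat : L → K → Prop} {ε δ γ : ℝ} (hε : 0 ≤ ε) (hδ : 0 ≤ δ) (hεδ : ε + δ < 1)
    (C : Circuit (Fin N)) {b : ℕ} (out : R → Fin b → Fin N ⊕ Fin C.size)
    (dec : R → (Fin b → Bool) → Option K) (h : ℕ) (hh : ∀ r j, C.nodeDepth (out r j) ≤ h)
    (hA : (1 / 2 + γ) * 2 ^ N ≤
      ((univ.filter fun x => Correct sat ε δ (inst C out dec) x).card : ℝ))
    {s : ℕ} (hs : 1 ≤ s) (hcond : (h : ℝ) * C.size * (24 * s) ^ h ≤ 2 ^ s * γ) :
    (1 - ε - δ) * γ * N ≤ b * (24 * s) ^ (h + 1) := by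
  have hs0 : (1 : ℝ) ≤ s := by exact_mod_cast hs
  have hg0 : 0 ≤ 1 - ε - δ := by linarith
  obtain ⟨q, hq⟩ : ∃ q : ℝ, q = 1 / (24 * s) := ⟨_, rfl⟩
  have hq0 : 0 < q := by rw [hq]; positivity
  have hq1 : q ≤ 1 / 3 := by
    rw [hq, div_le_div_iff₀ (by positivity) (by norm_num)]
    linarith
  have hbad := collapse' C hq0.le hq1 hs h
  have h1 : (12 * s * q : ℝ) = 1 / 2 := by rw [hq]; field_simp; norm_num
  rw [h1] at hbad
  have hqh : 0 < q ^ h := by positivity
  have hqs : q ^ h * (24 * s) ^ h = 1 := by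
    rw [← mul_pow, hq]
    have : (1 : ℝ) / (24 * s) * (24 * s) = 1 := by field_simp
    rw [this, one_pow]
  have h2 : (h : ℝ) * C.size * (1 / 2) ^ (s + 1) ≤ q ^ h * γ := by
    have h5 : ((1 : ℝ) / 2) ^ (s + 1) * 2 ^ s = 1 / 2 := by
      rw [pow_succ, mul_right_comm, ← mul_pow]
      norm_num
    have hγ0 : 0 ≤ 2 ^ s * γ := le_trans (by positivity) hcond
    have hγ : 0 ≤ γ := by
      by_contra hcon
      push Not at hcon
      have : (2 : ℝ) ^ s * γ < 0 := mul_neg_of_pos_of_neg (by positivity) hcon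
      linarith
    calc (h : ℝ) * C.size * (1 / 2) ^ (s + 1)
        = (1 / 2) ^ (s + 1) * ((h * C.size * (24 * s) ^ h) * q ^ h) := by
          rw [mul_assoc ((h : ℝ) * C.size), mul_comm ((24 * s : ℝ) ^ h), hqs]
          ring
      _ ≤ (1 / 2) ^ (s + 1) * ((2 ^ s * γ) * q ^ h) := by
          apply mul_le_mul_of_nonneg_left _ (by positivity)
          exact mul_le_mul_of_nonneg_right hcond hqh.le
      _ = ((1 / 2) ^ (s + 1) * 2 ^ s) * (γ * q ^ h) := by ring
      _ = 1 / 2 * (γ * q ^ h) := by rw [h5]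
      _ ≤ q ^ h * γ := by nlinarith [mul_nonneg hγ hqh.le]
  have hbad2 := hbad.trans h2
  obtain ⟨g, hg⟩ : ∃ g : Restr (Fin N) → ℝ, g = fun ρ => Ex un (fun z => ∑ i, if ρ i = none then
      (if Correct sat ε δ (inst C out dec) (ov ρ z) ∧
        Correct sat ε δ (inst C out dec) (SSE.flip i (ov ρ z)) then (1 : ℝ) else 0) else 0) :=
    ⟨_, rfl⟩
  -- the mean value of `g`
  have hmean : q ^ h * (N * (2 * γ)) ≤ Ex (wq (q ^ h)) g := by
    have e1 : g = fun ρ => ∑ i, Ex un (fun z => if ρ i = none then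
        (fun x => if Correct sat ε δ (inst C out dec) x ∧
          Correct sat ε δ (inst C out dec) (SSE.flip i x) then (1 : ℝ) else 0) (ov ρ z) else 0) := by
      rw [hg]
      funext ρ
      exact Ex_sum univ un fun i z => if ρ i = none then
        (if Correct sat ε δ (inst C out dec) (ov ρ z) ∧
          Correct sat ε δ (inst C out dec) (SSE.flip i (ov ρ z)) then (1 : ℝ) else 0) else 0
    rw [e1, Ex_sum univ (wq (q ^ h)) fun i (ρ : Restr (Fin N)) => Ex un (fun z => if ρ i = none then
        (fun x => if Correct sat ε δ (inst C out dec) x ∧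
          Correct sat ε δ (inst C out dec) (SSE.flip i x) then (1 : ℝ) else 0) (ov ρ z) else 0)]
    have e2 : ∀ i : Fin N, 2 * γ ≤ Ex un (fun x => if Correct sat ε δ (inst C out dec) x ∧
          Correct sat ε δ (inst C out dec) (SSE.flip i x) then (1 : ℝ) else 0) := by
      intro i
      have e3 := pairs_ge (fun x => Correct sat ε δ (inst C out dec) x) γ
        (by rw [Fintype.card_fin]; exact hA) i
      rw [← Ex_un, Fintype.card_fin] at e3
      have e4 : (0 : ℝ) < 2 ^ N := by positivity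
      exact le_of_mul_le_mul_left (by linarith) e4
    calc q ^ h * (N * (2 * γ)) = ∑ _i : Fin N, q ^ h * (2 * γ) := by
          rw [sum_const, card_univ, Fintype.card_fin, nsmul_eq_mul]
          ring
      _ ≤ _ := by
          refine sum_le_sum fun i _ => ?_
          have e5 := ex_star_ov (q ^ h) i (fun x => if Correct sat ε δ (inst C out dec) x ∧
            Correct sat ε δ (inst C out dec) (SSE.flip i x) then (1 : ℝ) else 0)
          refine (mul_le_mul_of_nonneg_left (e2 i) hqh.le).trans (le_of_eq ?_)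
          rw [← e5]
  -- the pointwise bounds
  have hw : ∀ a, 0 ≤ wq (q ^ h) a :=
    wq_nonneg hqh.le (pow_le_one₀ hq0.le (by linarith))
  have hgN : ∀ ρ, g ρ ≤ N := by
    intro ρ
    rw [hg]
    show Ex un _ ≤ _
    refine (Ex_mono un_nonneg (G := fun _ => (N : ℝ)) fun z => ?_).trans
      (le_of_eq (Ex_const un_sum _))
    calc _ ≤ ∑ _i : Fin N, (1 : ℝ) := by
          refine sum_le_sum fun i _ => ?_
          split_ifs <;> norm_num
      _ = N := by rw [sum_const, card_univ, Fintype.card_fin, nsmul_eq_mul, mul_one]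
  have hpt : ∀ ρ, (1 - ε - δ) * g ρ ≤
      (1 - ε - δ) * N * (if ¬ Shallow C s h ρ then (1 : ℝ) else 0) + 2 * (b * s) := by
    intro ρ
    by_cases hS : Shallow C s h ρ
    · rw [if_neg (not_not.2 hS), mul_zero, zero_add]
      have := shallow_bound (sat := sat) hε hδ C out dec h hh hs ρ hS
      rw [hg]
      exact this
    · rw [if_pos hS, mul_one]
      have := mul_le_mul_of_nonneg_left (hgN ρ) hg0
      have h3 : (0 : ℝ) ≤ 2 * (b * s) := by positivity
      linarith
  have h8 := Ex_mono hw hpt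
  rw [Ex_smul, Ex_add (wq (q ^ h)) (fun ρ : Restr (Fin N) => (1 - ε - δ) * N *
      (if ¬ Shallow C s h ρ then (1 : ℝ) else 0)) fun _ => (2 * (b * s) : ℝ),
    Ex_smul, Ex_const (wq_sum _)] at h8
  have hN0 : (0 : ℝ) ≤ N := Nat.cast_nonneg _
  have h9 : (1 - ε - δ) * N * Ex (wq (q ^ h)) (fun ρ : Restr (Fin N) =>
      if ¬ Shallow C s h ρ then (1 : ℝ) else 0) ≤ (1 - ε - δ) * N * (q ^ h * γ) :=
    mul_le_mul_of_nonneg_left hbad2 (mul_nonneg hg0 hN0)
  have h10 := mul_le_mul_of_nonneg_left hmean hg0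
  have h11 : (1 - ε - δ) * N * (q ^ h * γ) ≤ 2 * (b * s) := by linarith
  have h12 : (1 - ε - δ) * γ * N ≤ 2 * (b * s) * (24 * s) ^ h := by
    calc (1 - ε - δ) * γ * N = (1 - ε - δ) * N * (q ^ h * γ) * (24 * s) ^ h := by
          rw [mul_assoc _ (q ^ h * γ), mul_comm (q ^ h) γ, mul_assoc γ, hqs]
          ring
      _ ≤ 2 * (b * s) * (24 * s) ^ h := mul_le_mul_of_nonneg_right h11 (by positivity)
  refine h12.trans ?_
  rw [pow_succ]
  have h13 : (0 : ℝ) ≤ b * (24 * s) ^ h := by positivity
  have h14 : 2 * (b * s) * (24 * (s : ℝ)) ^ h = (b * (24 * s) ^ h) * (2 * s) := by ring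
  rw [h14]
  have h15 : (b : ℝ) * ((24 * s) ^ h * (24 * s)) = (b * (24 * s) ^ h) * (24 * s) := by ring
  rw [h15]
  exact mul_le_mul_of_nonneg_left (by linarith) h13

/-- reductions of small depth from parity must be large, even if they are correct for slightly more
than half of the inputs only -/
theorem ac0_main (h : ℕ) : ∃ X0 : ℝ, ∀ {N : ℕ} {R K L : Type} [Fintype R] (sat : L → K → Prop)
    (C : Circuit (Fin N)) {b : ℕ} (out : R → Fin b → Fin N ⊕ Fin C.size)
    (dec : R → (Fin b → Bool) → Option K) (ε δ γ : ℝ), 1 ≤ b →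
    (∀ r j, C.nodeDepth (out r j) ≤ h) → 0 ≤ ε → 0 ≤ δ → ε + δ < 1 → 0 < γ →
    (1 / 2 + γ) * 2 ^ N ≤ ((univ.filter fun x => Correct sat ε δ (inst C out dec) x).card : ℝ) →
    X0 ≤ (1 - ε - δ) * γ * N / b →
    γ * (2 : ℝ) ^ (((1 - ε - δ) * γ * N / b) ^ (1 / (h + 1 : ℝ)) / 100) ≤ C.size := by
  obtain ⟨Y0, hY48, hY0⟩ := SSE.exists_large h
  refine ⟨Y0 ^ (h + 1), ?_⟩
  intro N R K L _ sat C b out dec ε δ γ hb hh hε hδ hεδ hγ hA hX
  obtain ⟨X, hXd⟩ : ∃ X : ℝ, X = (1 - ε - δ) * γ * N / b := ⟨_, rfl⟩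
  rw [← hXd] at hX ⊢
  obtain ⟨Y, hYd⟩ : ∃ Y : ℝ, Y = X ^ (1 / (h + 1 : ℝ)) := ⟨_, rfl⟩
  rw [← hYd]
  have hY00 : (0 : ℝ) ≤ Y0 := by linarith
  have hXpos : 0 ≤ X := le_trans (by positivity) hX
  have hYX : Y ^ (h + 1) = X := by
    rw [hYd, ← Real.rpow_natCast, ← Real.rpow_mul hXpos]
    push_cast
    rw [one_div, inv_mul_cancel₀ (by positivity), Real.rpow_one]
  have hYn : 0 ≤ Y := by rw [hYd]; exact Real.rpow_nonneg hXpos _
  have hYY : Y0 ≤ Y := by
    by_contra hcon
    push Not at hcon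
    have := pow_lt_pow_left₀ hcon hYn (Nat.succ_ne_zero h)
    rw [Nat.succ_eq_add_one, hYX] at this
    linarith
  have hY := hY0 Y hYY
  by_contra hcon
  push Not at hcon
  obtain ⟨s, hs⟩ : ∃ s : ℕ, s = ⌈Y / 24⌉₊ - 1 := ⟨_, rfl⟩
  have hc1 : Y / 24 ≤ ⌈Y / 24⌉₊ := Nat.le_ceil _
  have hc2 : (⌈Y / 24⌉₊ : ℝ) < Y / 24 + 1 := Nat.ceil_lt_add_one (by positivity)
  have hc3 : 2 ≤ ⌈Y / 24⌉₊ := by
    have : (2 : ℝ) ≤ ⌈Y / 24⌉₊ := le_trans (by linarith) hc1
    exact_mod_cast this
  have hs1 : 1 ≤ s := by omega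
  have hsr : (s : ℝ) = ⌈Y / 24⌉₊ - 1 := by
    rw [hs, Nat.cast_sub (by omega), Nat.cast_one]
  have hs2 : 24 * (s : ℝ) < Y := by rw [hsr]; linarith
  have hs3 : Y / 24 - 1 ≤ s := by rw [hsr]; linarith
  have hlt : (24 * (s : ℝ)) ^ (h + 1) < X := by
    rw [← hYX]
    exact pow_lt_pow_left₀ hs2 (by positivity) (Nat.succ_ne_zero h)
  have hcond : (h : ℝ) * C.size * (24 * s) ^ h ≤ 2 ^ s * γ := by
    calc (h : ℝ) * C.size * (24 * s) ^ h ≤ h * (γ * 2 ^ (Y / 100)) * Y ^ h := by
          apply mul_le_mul _ (pow_le_pow_left₀ (by positivity) hs2.le h) (by positivity)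
            (by positivity)
          exact mul_le_mul_of_nonneg_left hcon.le (Nat.cast_nonneg _)
      _ = h * Y ^ h * 2 ^ (Y / 100) * γ := by ring
      _ ≤ 2 ^ (Y / 24 - 1) * γ := mul_le_mul_of_nonneg_right hY hγ.le
      _ ≤ (2 : ℝ) ^ (s : ℝ) * γ :=
          mul_le_mul_of_nonneg_right (Real.rpow_le_rpow_of_exponent_le (by norm_num) hs3) hγ.le
      _ = 2 ^ s * γ := by rw [Real.rpow_natCast]
  have hcore := ac0_core (sat := sat) hε hδ hεδ C out dec h hh hA hs1 hcond
  have hb0 : (0 : ℝ) < b := by exact_mod_cast hb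
  have hcore2 : X ≤ (24 * s) ^ (h + 1) := by
    rw [hXd, div_le_iff₀ hb0]
    linarith
  linarith

end main

end Pool.Agent.X246.ACR
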