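import Pool.Agent.Y601.SSE.Ac0

set_option autoImplicit false

/-!
# Reductions from parity to gap problems: sensitivity

An instance is a list of constraints `y : R → Option K`; an entry `none` is empty. `sat l k` says that
the labeling `l` satisfies the constraint `k`.
-/

namespace Pool.Agent.X246.ACR

open Finset Pool.Agent.Y601

section gap

open scoped Classical

variable {R K L : Type} [Fintype R]

/-- The number of the constraints of a list with empty entries. -/
noncomputable def total (y : R → Option K) : ℕ := (univ.filter fun r => y r ≠ none).card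

/-- The number of the constraints which are satisfied by the labeling `l`. -/
noncomputable def good (sat : L → K → Prop) (y : R → Option K) (l : L) : ℕ :=
  (univ.filter fun r => ∃ k, y r = some k ∧ sat l k).card

/-- The number of the constraints of `y` which are not at the same place in `z`. -/
noncomputable def lostc (y z : R → Option K) : ℕ := (univ.filter fun r => y r ≠ none ∧ z r ≠ y r).card

/-- The fraction of the constraints of `y` which are not at the same place in `z`. -/
noncomputable def frac (y z : R → Option K) : ℝ := lostc y z / total y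

theorem frac_nonneg (y z : R → Option K) : 0 ≤ frac y z := by
  unfold frac
  positivity

theorem good_le (sat : L → K → Prop) (y z : R → Option K) (l : L) :
    good sat y l ≤ good sat z l + lostc y z := by
  unfold good lostc
  refine le_trans (card_le_card ?_) (card_union_le _ _)
  intro r hr
  simp only [mem_filter, mem_univ, true_and, mem_union] at hr ⊢
  obtain ⟨k, hk, hs⟩ := hr
  by_cases h : z r = y r
  · exact Or.inl ⟨k, h.trans hk, hs⟩
  · exact Or.inr ⟨by rw [hk]; simp, h⟩

theorem total_add (y z : R → Option K) : total z + lostc y z = total y + lostc z y := by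
  have h : ∀ a b : R → Option K, total b + lostc a b =
      (univ.filter fun r => a r ≠ none ∧ b r ≠ a r).card +
        (univ.filter fun r => b r ≠ none ∧ a r ≠ b r).card +
        (univ.filter fun r => a r ≠ none ∧ a r = b r).card := by
    intro a b
    have h1 : total b = (univ.filter fun r => b r ≠ none ∧ a r ≠ b r).card +
        (univ.filter fun r => a r ≠ none ∧ a r = b r).card := by
      unfold total
      rw [← card_union_of_disjoint]
      · congr 1
        ext r
        simp only [mem_filter, mem_univ, true_and, mem_union]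
        constructor
        · intro h1
          by_cases h2 : a r = b r
          · exact Or.inr ⟨by rw [h2]; exact h1, h2⟩
          · exact Or.inl ⟨h1, h2⟩
        · rintro (h1 | h1)
          · exact h1.1
          · rw [← h1.2]; exact h1.1
      · rw [disjoint_left]
        intro r h1 h2
        simp only [mem_filter, mem_univ, true_and] at h1 h2
        exact h1.2 h2.2
    rw [h1]
    unfold lostc
    ring
  rw [h y z, h z y]
  have h2 : (univ.filter fun r => y r ≠ none ∧ y r = z r) =
      (univ.filter fun r => z r ≠ none ∧ z r = y r) := by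
    ext r
    simp only [mem_filter, mem_univ, true_and]
    constructor
    · rintro ⟨h1, h2⟩
      exact ⟨by rw [← h2]; exact h1, h2.symm⟩
    · rintro ⟨h1, h2⟩
      exact ⟨by rw [← h2]; exact h1, h2.symm⟩
  rw [h2]
  ring

/-- A yes instance and a no instance differ in many constraints. -/
theorem pair {sat : L → K → Prop} {y z : R → Option K} {ε δ : ℝ} (hε : 0 ≤ ε) (hδ : 0 ≤ δ)
    (hyes : ∃ l, (1 - ε) * total y ≤ good sat y l) (hno : ∀ l, good sat z l ≤ δ * total z)
    (hy : 1 ≤ total y) (hz : 1 ≤ total z) :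
    1 - ε - δ ≤ frac y z + frac z y := by
  obtain ⟨l, hl⟩ := hyes
  have h1 := hno l
  have h2 : (good sat y l : ℝ) ≤ good sat z l + lostc y z := by exact_mod_cast good_le sat y z l
  have h3 : (total z : ℝ) + lostc y z = total y + lostc z y := by exact_mod_cast total_add y z
  have hy' : (1 : ℝ) ≤ total y := by exact_mod_cast hy
  have hz' : (1 : ℝ) ≤ total z := by exact_mod_cast hz
  have ha : (0 : ℝ) ≤ lostc y z := Nat.cast_nonneg _
  have hb : (0 : ℝ) ≤ lostc z y := Nat.cast_nonneg _
  rcases le_total (total z : ℝ) (total y) with h | h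
  · have h4 : (1 - ε - δ) * total y ≤ lostc y z := by nlinarith
    have h5 : 1 - ε - δ ≤ frac y z := by
      unfold frac
      rw [le_div_iff₀ (by linarith)]
      exact h4
    have := frac_nonneg z y
    linarith
  · have h4 : (1 - ε - δ) * total z ≤ lostc z y := by nlinarith
    have h5 : 1 - ε - δ ≤ frac z y := by
      unfold frac
      rw [le_div_iff₀ (by linarith)]
      exact h4
    have := frac_nonneg y z
    linarith

end gap

section sum

open scoped Classical

variable {I : Type} [Fintype I] [DecidableEq I] {R K L : Type} [Fintype R]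

theorem sum_flip (i : I) (f : (I → Bool) → ℝ) : ∑ x, f (SSE.flip i x) = ∑ x, f x :=
  Fintype.sum_equiv ⟨SSE.flip i, SSE.flip i, SSE.flip_flip i, SSE.flip_flip i⟩ _ _ fun _ => rfl

/-- The double counting. -/
theorem core {sat : L → K → Prop} {ε δ : ℝ} (hε : 0 ≤ ε) (hδ : 0 ≤ δ)
    (Y : (I → Bool) → R → Option K) (A P : (I → Bool) → Prop) (J : Finset I)
    (hP : ∀ i ∈ J, ∀ x, P (SSE.flip i x) ↔ ¬ P x) (hA : ∀ x, A x → 1 ≤ total (Y x))
    (hyes : ∀ x, A x → ¬ P x → ∃ l, (1 - ε) * total (Y x) ≤ good sat (Y x) l)
    (hno : ∀ x, A x → P x → ∀ l, (good sat (Y x) l : ℝ) ≤ δ * total (Y x)) :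
    (1 - ε - δ) * ∑ x, ∑ i ∈ J, (if A x ∧ A (SSE.flip i x) then (1 : ℝ) else 0) ≤
      2 * ∑ x, ∑ i ∈ J, frac (Y x) (Y (SSE.flip i x)) := by
  have h1 : ∀ x, ∀ i ∈ J, (1 - ε - δ) * (if A x ∧ A (SSE.flip i x) then (1 : ℝ) else 0) ≤
      frac (Y x) (Y (SSE.flip i x)) + frac (Y (SSE.flip i x)) (Y x) := by
    intro x i hi
    by_cases h : A x ∧ A (SSE.flip i x)
    · rw [if_pos h, mul_one]
      by_cases hp : P x
      · have h2 : ¬ P (SSE.flip i x) := by rw [hP i hi]; exact not_not.2 hp
        have := pair hε hδ (hyes _ h.2 h2) (hno _ h.1 hp) (hA _ h.2) (hA _ h.1)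
        linarith
      · have h2 : P (SSE.flip i x) := (hP i hi x).2 hp
        exact pair hε hδ (hyes _ h.1 hp) (hno _ h.2 h2) (hA _ h.1) (hA _ h.2)
    · rw [if_neg h, mul_zero]
      exact add_nonneg (frac_nonneg _ _) (frac_nonneg _ _)
  calc (1 - ε - δ) * ∑ x, ∑ i ∈ J, (if A x ∧ A (SSE.flip i x) then (1 : ℝ) else 0)
      = ∑ x, ∑ i ∈ J, (1 - ε - δ) * (if A x ∧ A (SSE.flip i x) then (1 : ℝ) else 0) := by
        rw [mul_sum]
        exact sum_congr rfl fun x _ => by rw [mul_sum]
    _ ≤ ∑ x, ∑ i ∈ J, (frac (Y x) (Y (SSE.flip i x)) + frac (Y (SSE.flip i x)) (Y x)) :=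
        sum_le_sum fun x _ => sum_le_sum fun i hi => h1 x i hi
    _ = ∑ i ∈ J, ∑ x, frac (Y x) (Y (SSE.flip i x)) + ∑ i ∈ J, ∑ x, frac (Y (SSE.flip i x)) (Y x) := by
        rw [sum_comm, ← sum_add_distrib]
        exact sum_congr rfl fun i _ => by rw [sum_add_distrib]
    _ = ∑ i ∈ J, ∑ x, frac (Y x) (Y (SSE.flip i x)) + ∑ i ∈ J, ∑ x, frac (Y x) (Y (SSE.flip i x)) := by
        congr 1
        refine sum_congr rfl fun i _ => ?_
        rw [← sum_flip i fun x => frac (Y (SSE.flip i x)) (Y x)]
        exact sum_congr rfl fun x _ => by rw [SSE.flip_flip]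
    _ = _ := by rw [sum_comm (s := univ)]; ring

/-- The number of the coordinates in `J` to which the entry `r` is sensitive at `x`. -/
noncomputable def sens (Y : (I → Bool) → R → Option K) (J : Finset I) (r : R) (x : I → Bool) : ℕ :=
  (J.filter fun i => Y (SSE.flip i x) r ≠ Y x r).card

/-- the sum of the fractions is the mean sensitivity of the constraints -/
theorem sum_frac (Y : (I → Bool) → R → Option K) (J : Finset I) (x : I → Bool) :
    ∑ i ∈ J, frac (Y x) (Y (SSE.flip i x)) =
      (∑ r, if Y x r ≠ none then (sens Y J r x : ℝ) else 0) / total (Y x) := by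
  unfold frac
  rw [← sum_div]
  congr 1
  have h1 : ∑ i ∈ J, (lostc (Y x) (Y (SSE.flip i x)) : ℝ) =
      ∑ i ∈ J, ∑ r, if Y x r ≠ none ∧ Y (SSE.flip i x) r ≠ Y x r then (1 : ℝ) else 0 := by
    refine sum_congr rfl fun i _ => ?_
    unfold lostc
    rw [card_filter]
    push_cast
    rfl
  rw [h1, sum_comm]
  refine sum_congr rfl fun r _ => ?_
  by_cases h : Y x r ≠ none
  · rw [if_pos h]
    unfold sens
    rw [card_filter]
    push_cast
    exact sum_congr rfl fun i _ => if_congr (and_iff_right h) rfl rfl
  · rw [if_neg h]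
    exact sum_eq_zero fun i _ => if_neg fun h2 => h h2.1

theorem sum_frac_le (Y : (I → Bool) → R → Option K) (J : Finset I) (x : I → Bool) (t : ℝ)
    (ht0 : 0 ≤ t) (ht : ∀ r, (sens Y J r x : ℝ) ≤ t) : ∑ i ∈ J, frac (Y x) (Y (SSE.flip i x)) ≤ t := by
  rw [sum_frac]
  rcases Nat.eq_zero_or_pos (total (Y x)) with h0 | h0
  · rw [h0, Nat.cast_zero, div_zero]
    exact ht0
  · have h1 : (0 : ℝ) < total (Y x) := by exact_mod_cast h0
    rw [div_le_iff₀ h1]
    have h2 : (total (Y x) : ℝ) = ∑ r, if Y x r ≠ none then (1 : ℝ) else 0 := by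
      unfold total
      rw [card_filter]
      push_cast
      rfl
    rw [h2, mul_sum]
    refine sum_le_sum fun r _ => ?_
    by_cases h : Y x r ≠ none
    · rw [if_pos h, if_pos h, mul_one]
      exact ht r
    · rw [if_neg h, if_neg h, mul_zero]

/-- Most pairs of neighbours are in a set which contains more than half of all points. -/
theorem pairs_ge (A : (I → Bool) → Prop) (γ : ℝ)
    (hA : (1 / 2 + γ) * 2 ^ Fintype.card I ≤ ((univ.filter fun x => A x).card : ℝ)) (i : I) :
    2 * γ * 2 ^ Fintype.card I ≤ ∑ x, (if A x ∧ A (SSE.flip i x) then (1 : ℝ) else 0) := by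
  have h1 : ∑ x, (if A x then (1 : ℝ) else 0) = ((univ.filter fun x => A x).card : ℝ) := by
    rw [card_filter]; push_cast; rfl
  have h2 : ∑ x, (if A (SSE.flip i x) then (1 : ℝ) else 0) =
      ((univ.filter fun x => A x).card : ℝ) := by
    rw [← h1]
    exact sum_flip i fun x => if A x then (1 : ℝ) else 0
  have h3 : ∀ x : I → Bool, (if A x then (1 : ℝ) else 0) + (if A (SSE.flip i x) then (1 : ℝ) else 0) - 1
      ≤ (if A x ∧ A (SSE.flip i x) then (1 : ℝ) else 0) := by
    intro x
    by_cases ha : A x <;> by_cases hb : A (SSE.flip i x) <;> simp [ha, hb]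
  have h4 := sum_le_sum fun x (_ : x ∈ (univ : Finset (I → Bool))) => h3 x
  rw [sum_sub_distrib, sum_add_distrib, h1, h2, sum_const, card_univ, Fintype.card_fun,
    Fintype.card_bool, nsmul_eq_mul] at h4
  push_cast at h4
  linarith

end sum

end Pool.Agent.X246.ACR
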