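import Pool.Agent.X246.ACR.Core

set_option autoImplicit false

/-!
# De Morgan formulas: the bound of Khrapchenko for the average sensitivity, and reductions computed
by small formulas
-/

namespace Pool.Agent.X246.ACR

open Finset Pool.Agent.Y601

/-- De Morgan formulas: AND, OR and literals (`lit i true` is the variable `i`, `lit i false` its
negation). -/
inductive DeMorgan (I : Type) : Type
  | const (c : Bool) : DeMorgan I
  | lit (i : I) (c : Bool) : DeMorgan I
  | and (F G : DeMorgan I) : DeMorgan I
  | or (F G : DeMorgan I) : DeMorgan I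

/-- The value of a formula. -/
def DeMorgan.eval {I : Type} (x : I → Bool) : DeMorgan I → Bool
  | .const c => c
  | .lit i c => x i == c
  | .and F G => F.eval x && G.eval x
  | .or F G => F.eval x || G.eval x

/-- The size of a formula: the number of its literals, with multiplicities. -/
def DeMorgan.size {I : Type} : DeMorgan I → ℕ
  | .const _ => 0
  | .lit _ _ => 1
  | .and F G => F.size + G.size
  | .or F G => F.size + G.size

section

open scoped Classical

variable {I : Type} [Fintype I] [DecidableEq I]

/-- the number of the pairs of neighbours between `A` and `B` -/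
noncomputable def edges (A B : Finset (I → Bool)) : ℕ :=
  ∑ a ∈ A, (univ.filter fun i => SSE.flip i a ∈ B).card

theorem edges_symm (A B : Finset (I → Bool)) : edges A B = edges B A := by
  have h : ∀ A B : Finset (I → Bool), edges A B =
      ∑ i : I, ∑ x : I → Bool, if x ∈ A ∧ SSE.flip i x ∈ B then 1 else 0 := by
    intro A B
    unfold edges
    simp_rw [card_filter]
    rw [sum_comm]
    refine sum_congr rfl fun i _ => ?_
    rw [← Finset.sum_filter_add_sum_filter_not univ (fun x => x ∈ A)
      (fun x => if x ∈ A ∧ SSE.flip i x ∈ B then 1 else 0)]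
    rw [sum_eq_zero (s := univ.filter fun x => ¬ x ∈ A) (fun x hx => by
      rw [mem_filter] at hx
      exact if_neg fun h => hx.2 h.1), add_zero]
    have h1 : (univ.filter fun x => x ∈ A) = A := by ext; simp
    rw [h1]
    refine sum_congr rfl fun x hx => ?_
    exact if_congr ⟨fun h => ⟨hx, h⟩, fun h => h.2⟩ rfl rfl
  rw [h A B, h B A]
  refine sum_congr rfl fun i _ => ?_
  refine Fintype.sum_equiv ⟨SSE.flip i, SSE.flip i, SSE.flip_flip i, SSE.flip_flip i⟩ _ _ fun x => ?_
  show _ = if SSE.flip i x ∈ B ∧ SSE.flip i (SSE.flip i x) ∈ A then 1 else 0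
  rw [SSE.flip_flip]
  exact if_congr ⟨fun h => ⟨h.2, h.1⟩, fun h => ⟨h.2, h.1⟩⟩ rfl rfl

theorem sqrt_add_le {a b c d : ℝ} (ha : 0 ≤ a) (hb : 0 ≤ b) (hc : 0 ≤ c) (hd : 0 ≤ d) :
    √(a * c) + √(b * d) ≤ √((a + b) * (c + d)) := by
  rw [Real.sqrt_mul ha, Real.sqrt_mul hb]
  apply Real.le_sqrt_of_sq_le
  have h1 := Real.sq_sqrt ha
  have h2 := Real.sq_sqrt hb
  have h3 := Real.sq_sqrt hc
  have h4 := Real.sq_sqrt hd
  nlinarith [sq_nonneg (√a * √d - √b * √c)]

/-- The bound of Khrapchenko. -/
theorem khrapchenko (F : DeMorgan I) : ∀ A B : Finset (I → Bool),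
    (∀ a ∈ A, F.eval a = false) → (∀ b ∈ B, F.eval b = true) →
    (edges A B : ℝ) ≤ √(F.size * (A.card * B.card)) := by
  induction F with
  | const c =>
    intro A B hA hB
    have h : edges A B = 0 := by
      unfold edges
      refine sum_eq_zero fun a ha => ?_
      rw [card_eq_zero, filter_eq_empty_iff]
      intro i _ hi
      have h1 := hA a ha
      have h2 := hB _ hi
      simp only [DeMorgan.eval] at h1 h2
      rw [h1] at h2
      exact Bool.noConfusion h2
    rw [h, Nat.cast_zero]
    positivity
  | lit i c =>
    have key : ∀ A B : Finset (I → Bool),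
        (∀ a ∈ A, ∀ b ∈ B, a i ≠ b i) → edges A B ≤ A.card := by
      intro A B h
      unfold edges
      rw [card_eq_sum_ones]
      refine sum_le_sum fun a ha => ?_
      refine (card_le_card (t := {i}) ?_).trans (le_of_eq (card_singleton _))
      intro j hj
      rw [mem_filter] at hj
      rw [mem_singleton]
      by_contra hne
      apply h a ha _ hj.2
      unfold SSE.flip
      rw [Function.update_of_ne (Ne.symm hne)]
    intro A B hA hB
    have hne : ∀ a ∈ A, ∀ b ∈ B, a i ≠ b i := by
      intro a ha b hb h
      have h1 := hA a ha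
      have h2 := hB b hb
      simp only [DeMorgan.eval] at h1 h2
      rw [h, h2] at h1
      exact Bool.noConfusion h1
    have h1 : (edges A B : ℝ) ≤ A.card := by exact_mod_cast key A B hne
    have h2 : (edges A B : ℝ) ≤ B.card := by
      rw [edges_symm]
      exact_mod_cast key B A fun b hb a ha => (hne a ha b hb).symm
    apply Real.le_sqrt_of_sq_le
    simp only [DeMorgan.size, Nat.cast_one, one_mul]
    rw [sq]
    exact mul_le_mul h1 h2 (Nat.cast_nonneg _) (Nat.cast_nonneg _)
  | and F G ihF ihG =>
    intro A B hA hB
    obtain ⟨A1, hA1⟩ : ∃ A1, A1 = A.filter fun a => F.eval a = false := ⟨_, rfl⟩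
    obtain ⟨A2, hA2⟩ : ∃ A2, A2 = A.filter fun a => ¬ F.eval a = false := ⟨_, rfl⟩
    have hcard : (A.card : ℝ) = A1.card + A2.card := by
      rw [hA1, hA2]
      exact_mod_cast (card_filter_add_card_filter_not (s := A) fun a => F.eval a = false).symm
    have hedge : (edges A B : ℝ) = edges A1 B + edges A2 B := by
      rw [hA1, hA2]
      unfold edges
      exact_mod_cast (sum_filter_add_sum_filter_not A (fun a => F.eval a = false) _).symm
    have h1 := ihF A1 B (fun a ha => by rw [hA1, mem_filter] at ha; exact ha.2) (fun b hb => by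
      have := hB b hb
      simp only [DeMorgan.eval, Bool.and_eq_true] at this
      exact this.1)
    have h2 := ihG A2 B (fun a ha => by
      rw [hA2, mem_filter] at ha
      have := hA a ha.1
      simp only [DeMorgan.eval] at this
      rw [Bool.not_eq_false] at ha
      rw [ha.2, Bool.true_and] at this
      exact this) (fun b hb => by
      have := hB b hb
      simp only [DeMorgan.eval, Bool.and_eq_true] at this
      exact this.2)
    rw [hedge]
    refine (add_le_add h1 h2).trans ?_
    have h3 := sqrt_add_le (a := (F.size : ℝ)) (b := (G.size : ℝ)) (c := A1.card * B.card)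
      (d := A2.card * B.card) (Nat.cast_nonneg _) (Nat.cast_nonneg _) (by positivity) (by positivity)
    refine h3.trans (le_of_eq ?_)
    simp only [DeMorgan.size]
    push_cast
    rw [hcard]
    congr 1
    ring
  | or F G ihF ihG =>
    intro A B hA hB
    obtain ⟨B1, hB1⟩ : ∃ B1, B1 = B.filter fun a => F.eval a = true := ⟨_, rfl⟩
    obtain ⟨B2, hB2⟩ : ∃ B2, B2 = B.filter fun a => ¬ F.eval a = true := ⟨_, rfl⟩
    have hcard : (B.card : ℝ) = B1.card + B2.card := by
      rw [hB1, hB2]
      exact_mod_cast (card_filter_add_card_filter_not (s := B) fun a => F.eval a = true).symm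
    have hedge : (edges A B : ℝ) = edges A B1 + edges A B2 := by
      rw [edges_symm A B, edges_symm A B1, edges_symm A B2, hB1, hB2]
      unfold edges
      exact_mod_cast (sum_filter_add_sum_filter_not B (fun a => F.eval a = true) _).symm
    have h1 := ihF A B1 (fun a ha => by
      have := hA a ha
      simp only [DeMorgan.eval, Bool.or_eq_false_iff] at this
      exact this.1) (fun b hb => by rw [hB1, mem_filter] at hb; exact hb.2)
    have h2 := ihG A B2 (fun a ha => by
      have := hA a ha
      simp only [DeMorgan.eval, Bool.or_eq_false_iff] at this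
      exact this.2) (fun b hb => by
      rw [hB2, mem_filter] at hb
      have := hB b hb.1
      simp only [DeMorgan.eval] at this
      rw [Bool.not_eq_true] at hb
      rw [hb.2, Bool.false_or] at this
      exact this)
    rw [hedge]
    refine (add_le_add h1 h2).trans ?_
    have h3 := sqrt_add_le (a := (F.size : ℝ)) (b := (G.size : ℝ)) (c := A.card * B1.card)
      (d := A.card * B2.card) (Nat.cast_nonneg _) (Nat.cast_nonneg _) (by positivity) (by positivity)
    refine h3.trans (le_of_eq ?_)
    simp only [DeMorgan.size]
    push_cast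
    rw [hcard]
    congr 1
    ring

/-- The average sensitivity is at most the square root of the size. -/
theorem sum_sens_le (F : DeMorgan I) :
    ∑ x : I → Bool, ((univ.filter fun i => F.eval (SSE.flip i x) ≠ F.eval x).card : ℝ) ≤
      2 ^ Fintype.card I * √F.size := by
  obtain ⟨A, hA⟩ : ∃ A : Finset (I → Bool), A = univ.filter fun x => F.eval x = false := ⟨_, rfl⟩
  obtain ⟨B, hB⟩ : ∃ B : Finset (I → Bool), B = univ.filter fun x => ¬ F.eval x = false := ⟨_, rfl⟩
  have h1 := khrapchenko F A B (fun a ha => by rw [hA, mem_filter] at ha; exact ha.2) (fun b hb => by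
    rw [hB, mem_filter, Bool.not_eq_false] at hb
    exact hb.2)
  have h2 : ∑ x : I → Bool, (univ.filter fun i => F.eval (SSE.flip i x) ≠ F.eval x).card =
      edges A B + edges B A := by
    rw [← sum_filter_add_sum_filter_not univ (fun x => F.eval x = false)]
    unfold edges
    rw [← hA, ← hB]
    congr 1
    · refine sum_congr rfl fun x hx => ?_
      congr 1
      refine filter_congr fun i _ => ?_
      rw [hA, mem_filter] at hx
      rw [hB, mem_filter, hx.2]
      simp
    · refine sum_congr rfl fun x hx => ?_
      congr 1
      refine filter_congr fun i _ => ?_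
      rw [hB, mem_filter, Bool.not_eq_false] at hx
      rw [hA, mem_filter, hx.2]
      simp
  have h3 : (A.card : ℝ) + B.card = 2 ^ Fintype.card I := by
    have := card_filter_add_card_filter_not (s := (univ : Finset (I → Bool)))
      fun x => F.eval x = false
    rw [← hA, ← hB, card_univ, Fintype.card_fun, Fintype.card_bool] at this
    exact_mod_cast this
  have h4 : √(F.size * (A.card * B.card)) ≤ 2 ^ Fintype.card I / 2 * √F.size := by
    rw [Real.sqrt_mul (Nat.cast_nonneg _), mul_comm]
    apply mul_le_mul_of_nonneg_right _ (Real.sqrt_nonneg _)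
    rw [← h3]
    apply Real.sqrt_le_iff.2
    constructor
    · positivity
    · nlinarith [sq_nonneg ((A.card : ℝ) - B.card)]
  have h5 : (∑ x : I → Bool, ((univ.filter fun i => F.eval (SSE.flip i x) ≠ F.eval x).card : ℝ)) =
      edges A B + edges B A := by exact_mod_cast h2
  rw [h5, edges_symm B A]
  linarith

end

end Pool.Agent.X246.ACR
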