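import Pool.Agent.X246.ACR.Ac0
import Pool.Agent.X246.ACR.Form

set_option autoImplicit false

/-!
# Reductions from parity to gap problems: the three bounds, for randomised reductions
-/

namespace Pool.Agent.X246.ACR

open Finset DomAC0 Pool.Agent.Y601

open scoped Classical

variable {N : ℕ} {R K L : Type} [Fintype R]

/-- The mean, over the constraints of the instance `Y x`, of the number of the input bits whose change
alters this entry of the list. -/
noncomputable def meanSens (Y : (Fin N → Bool) → R → Option K) (x : Fin N → Bool) : ℝ :=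
  (∑ r, if Y x r ≠ none then ((univ.filter fun i => Y (SSE.flip i x) r ≠ Y x r).card : ℝ) else 0) /
    (univ.filter fun r => Y x r ≠ none).card

/-- The general bound. -/
theorem sens_main {sat : L → K → Prop} {ε δ γ : ℝ} (hε : 0 ≤ ε) (hδ : 0 ≤ δ) (hεδ : ε + δ < 1)
    (Y : (Fin N → Bool) → R → Option K)
    (hA : (1 / 2 + γ) * 2 ^ N ≤ ((univ.filter fun x => Correct sat ε δ Y x).card : ℝ)) :
    (1 - ε - δ) * γ * N ≤ (∑ x, meanSens Y x) / 2 ^ N := by
  have hg0 : 0 ≤ 1 - ε - δ := by linarith
  have h1 := core (sat := sat) hε hδ Y (fun x => Correct sat ε δ Y x)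
    (fun x => Odd (univ.filter fun i => x i = true).card) univ
    (fun i _ x => SSE.odd_flip i x) (fun x hx => hx.1) (fun x hx hp => hx.2.1 hp)
    (fun x hx hp => hx.2.2 hp)
  have h2 : ∑ x, ∑ i, frac (Y x) (Y (SSE.flip i x)) = ∑ x, meanSens Y x := by
    refine sum_congr rfl fun x _ => ?_
    rw [sum_frac]
    rfl
  rw [h2] at h1
  have h3 : N * (2 * γ * 2 ^ N) ≤ ∑ x, ∑ i, (if Correct sat ε δ Y x ∧
      Correct sat ε δ Y (SSE.flip i x) then (1 : ℝ) else 0) := by
    rw [sum_comm]
    calc (N : ℝ) * (2 * γ * 2 ^ N) = ∑ _i : Fin N, 2 * γ * 2 ^ N := by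
          rw [sum_const, card_univ, Fintype.card_fin, nsmul_eq_mul]
      _ ≤ _ := by
          refine sum_le_sum fun i _ => ?_
          have := pairs_ge (fun x => Correct sat ε δ Y x) γ
            (by rw [Fintype.card_fin]; exact hA) i
          rw [Fintype.card_fin] at this
          exact this
  have h4 := mul_le_mul_of_nonneg_left h3 hg0
  rw [le_div_iff₀ (by positivity)]
  linarith

/-- Formulas. -/
theorem form_main {sat : L → K → Prop} {ε δ γ : ℝ} (hε : 0 ≤ ε) (hδ : 0 ≤ δ) (hεδ : ε + δ < 1)
    {b : ℕ} (F : R → Fin b → DeMorgan (Fin N)) (dec : R → (Fin b → Bool) → K) (S : ℕ)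
    (hS : ∀ r j, (F r j).size ≤ S)
    (hA : (1 / 2 + γ) * 2 ^ N ≤ ((univ.filter fun x => Correct sat ε δ
      (fun x r => some (dec r fun j => (F r j).eval x)) x).card : ℝ)) :
    (1 - ε - δ) * γ * N ≤ b * √S := by
  refine (sens_main hε hδ hεδ _ hA).trans ?_
  rw [div_le_iff₀ (by positivity)]
  rcases Nat.eq_zero_or_pos (Fintype.card R) with h0 | h0
  · have : IsEmpty R := Fintype.card_eq_zero_iff.1 h0
    have h1 : ∀ x, meanSens (fun x (r : R) => some (dec r fun j => (F r j).eval x)) x = 0 := by
      intro x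
      unfold meanSens
      simp
    rw [sum_eq_zero fun x _ => h1 x]
    positivity
  have hR : (0 : ℝ) < Fintype.card R := by exact_mod_cast h0
  have h1 : ∀ x, meanSens (fun x (r : R) => some (dec r fun j => (F r j).eval x)) x ≤
      (∑ r, ∑ j, ((univ.filter fun i => (F r j).eval (SSE.flip i x) ≠ (F r j).eval x).card : ℝ)) /
        Fintype.card R := by
    intro x
    unfold meanSens
    have h2 : ((univ.filter fun r : R => some (dec r fun j => (F r j).eval x) ≠ none).card : ℝ) =
        Fintype.card R := by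
      rw [filter_true_of_mem (fun r _ => by simp), card_univ]
    rw [h2]
    apply div_le_div_of_nonneg_right _ hR.le
    refine sum_le_sum fun r _ => ?_
    rw [if_pos (by simp)]
    have h3 : (univ.filter fun i => some (dec r fun j => (F r j).eval (SSE.flip i x)) ≠
        some (dec r fun j => (F r j).eval x)) ⊆ (univ : Finset (Fin b)).biUnion fun j =>
        univ.filter fun i => (F r j).eval (SSE.flip i x) ≠ (F r j).eval x := by
      intro i hi
      rw [mem_filter] at hi
      rw [mem_biUnion]
      by_contra hcon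
      push Not at hcon
      apply hi.2
      congr 2
      funext j
      have := hcon j (mem_univ _)
      rw [mem_filter] at this
      push Not at this
      exact this (mem_univ _)
    exact_mod_cast (card_le_card h3).trans card_biUnion_le
  refine (sum_le_sum fun x _ => h1 x).trans ?_
  rw [← sum_div, div_le_iff₀ hR, sum_comm]
  calc ∑ r, ∑ x : Fin N → Bool, ∑ j,
        ((univ.filter fun i => (F r j).eval (SSE.flip i x) ≠ (F r j).eval x).card : ℝ)
      = ∑ r, ∑ j, ∑ x : Fin N → Bool,
        ((univ.filter fun i => (F r j).eval (SSE.flip i x) ≠ (F r j).eval x).card : ℝ) :=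
        sum_congr rfl fun r _ => sum_comm
    _ ≤ ∑ _r : R, ∑ _j : Fin b, 2 ^ N * √S := by
        refine sum_le_sum fun r _ => sum_le_sum fun j _ => ?_
        refine (sum_sens_le (F r j)).trans ?_
        rw [Fintype.card_fin]
        apply mul_le_mul_of_nonneg_left _ (by positivity)
        exact Real.sqrt_le_sqrt (by exact_mod_cast hS r j)
    _ = b * √S * 2 ^ N * Fintype.card R := by
        rw [sum_const, sum_const, card_univ, card_univ, Fintype.card_fin, nsmul_eq_mul,
          nsmul_eq_mul]
        ring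

/-- Averaging. -/
theorem exists_index {Ω : Type} [Fintype Ω] [Nonempty Ω] (A : Ω → (Fin N → Bool) → Prop) (γ : ℝ)
    (h : (1 / 2 + γ) * (2 ^ N * Fintype.card Ω) ≤
      ((univ.filter fun p : Ω × (Fin N → Bool) => A p.1 p.2).card : ℝ)) :
    ∃ ω, (1 / 2 + γ) * 2 ^ N ≤ ((univ.filter fun x => A ω x).card : ℝ) := by
  by_contra hcon
  push Not at hcon
  have h1 : ((univ.filter fun p : Ω × (Fin N → Bool) => A p.1 p.2).card : ℝ) =
      ∑ ω, ((univ.filter fun x => A ω x).card : ℝ) := by
    simp_rw [card_filter]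
    push_cast
    rw [Fintype.sum_prod_type]
  have h2 : ∑ ω, ((univ.filter fun x => A ω x).card : ℝ) <
      ∑ _ω : Ω, (1 / 2 + γ) * 2 ^ N := sum_lt_sum_of_nonempty univ_nonempty fun ω _ => hcon ω
  rw [sum_const, card_univ, nsmul_eq_mul] at h2
  rw [h1] at h
  linarith

end Pool.Agent.X246.ACR
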