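import Pool.Agent.X246.ACR.Neg

set_option autoImplicit false

/-!
# Monotone functions: the average sensitivity, and the number of changes along a chain
-/

namespace Pool.Agent.X246.ACR

open Finset Pool.Agent.Y601

section

open scoped Classical

variable {I : Type} [Fintype I] [DecidableEq I]

/-- the sign of the coordinate `i` -/
noncomputable def chi (i : I) (x : I → Bool) : ℝ := if x i = true then 1 else -1

theorem chi_sq (i : I) (x : I → Bool) : chi i x * chi i x = 1 := by
  unfold chi
  split_ifs <;> norm_num

theorem chi_flip_self (i : I) (x : I → Bool) : chi i (SSE.flip i x) = -chi i x := by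
  unfold chi SSE.flip
  rw [Function.update_self]
  cases x i <;> simp

theorem chi_flip_ne {i j : I} (h : j ≠ i) (x : I → Bool) : chi j (SSE.flip i x) = chi j x := by
  unfold chi SSE.flip
  rw [Function.update_of_ne h]

theorem sum_chi_mul {i j : I} (h : i ≠ j) : ∑ x : I → Bool, chi i x * chi j x = 0 := by
  have h1 := sum_flip i fun x : I → Bool => chi i x * chi j x
  simp only [chi_flip_self, chi_flip_ne (Ne.symm h)] at h1
  have h2 : ∑ x : I → Bool, -chi i x * chi j x = -∑ x : I → Bool, chi i x * chi j x := by
    rw [← sum_neg_distrib]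
    exact sum_congr rfl fun x _ => by ring
  rw [h2] at h1
  linarith

/-- the second moment of the sum of the signs -/
theorem sum_sq : ∑ x : I → Bool, (∑ i, chi i x) ^ 2 = Fintype.card I * 2 ^ Fintype.card I := by
  have h1 : ∀ x : I → Bool, (∑ i, chi i x) ^ 2 = ∑ i, ∑ j, chi i x * chi j x := by
    intro x
    rw [sq, sum_mul_sum]
  simp_rw [h1]
  rw [sum_comm]
  have h2 : ∀ i : I, ∑ x : I → Bool, ∑ j, chi i x * chi j x = 2 ^ Fintype.card I := by
    intro i
    rw [sum_comm, sum_eq_single i]
    · simp_rw [chi_sq]
      rw [sum_const, card_univ, Fintype.card_fun, Fintype.card_bool]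
      simp
    · intro j _ hj
      exact sum_chi_mul (Ne.symm hj)
    · intro h
      exact absurd (mem_univ i) h
  simp_rw [h2]
  rw [sum_const, card_univ, nsmul_eq_mul]

/-- `f` is monotone or antitone in each variable. -/
def Unate (f : (I → Bool) → Bool) : Prop :=
  ∃ s : I → Bool, Monotone fun x : I → Bool => f fun i => xor (x i) (s i)

theorem mono_le_update (x : I → Bool) (i : I) (h : x i = false) : x ≤ SSE.flip i x := by
  intro j
  unfold SSE.flip
  by_cases hj : j = i
  · subst hj
    rw [h]
    exact Bool.false_le _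
  · rw [Function.update_of_ne hj]

theorem flip_le (x : I → Bool) (i : I) (h : x i = true) : SSE.flip i x ≤ x := by
  intro j
  unfold SSE.flip
  by_cases hj : j = i
  · subst hj
    rw [h]
    exact Bool.le_true _
  · rw [Function.update_of_ne hj]

/-- the number of sensitive points of a monotone function is a Fourier coefficient -/
theorem mono_sens (f : (I → Bool) → Bool) (hf : Monotone f) (i : I) :
    ((univ.filter fun x : I → Bool => f (SSE.flip i x) ≠ f x).card : ℝ) =
      ∑ x, (if f x = true then 1 else -1) * chi i x := by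
  obtain ⟨F, hF⟩ : ∃ F : (I → Bool) → ℝ, F = fun x => if f x = true then 1 else -1 := ⟨_, rfl⟩
  have h1 : ∑ x, F x * chi i x = 1 / 2 * ∑ x, (F x - F (SSE.flip i x)) * chi i x := by
    have h2 := sum_flip i fun x : I → Bool => F x * chi i x
    simp only [chi_flip_self] at h2
    have h3 : ∑ x, (F x - F (SSE.flip i x)) * chi i x =
        ∑ x, F x * chi i x + ∑ x, F (SSE.flip i x) * -chi i x := by
      rw [← sum_add_distrib]
      exact sum_congr rfl fun x _ => by ring
    rw [h3, h2]
    ring
  have h4 : ∀ x : I → Bool, (F x - F (SSE.flip i x)) * chi i x =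
      2 * if f (SSE.flip i x) ≠ f x then 1 else 0 := by
    intro x
    rw [hF]
    unfold chi
    by_cases hx : x i = true
    · have h5 : f (SSE.flip i x) ≤ f x := hf (flip_le x i hx)
      cases hfx : f x <;> cases hfy : f (SSE.flip i x)
      · simp [hfx, hfy, hx]
      · rw [hfx, hfy] at h5
        exact absurd h5 (by decide)
      · simp [hfx, hfy, hx]
        norm_num
      · simp [hfx, hfy, hx]
    · rw [Bool.not_eq_true] at hx
      have h5 : f x ≤ f (SSE.flip i x) := hf (mono_le_update x i hx)
      cases hfx : f x <;> cases hfy : f (SSE.flip i x)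
      · simp [hfx, hfy, hx]
      · simp [hfx, hfy, hx]
        norm_num
      · rw [hfx, hfy] at h5
        exact absurd h5 (by decide)
      · simp [hfx, hfy, hx]
  rw [hF] at h1 h4
  rw [h1]
  simp_rw [h4]
  rw [← mul_sum, card_filter]
  push_cast
  ring

/-- The average sensitivity of a monotone function is at most the square root of the number of the
variables. -/
theorem mono_sum (f : (I → Bool) → Bool) (hf : Monotone f) :
    ∑ x : I → Bool, ((univ.filter fun i => f (SSE.flip i x) ≠ f x).card : ℝ) ≤
      2 ^ Fintype.card I * √(Fintype.card I) := by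
  have h0 : ∑ x : I → Bool, ((univ.filter fun i => f (SSE.flip i x) ≠ f x).card : ℝ) =
      ∑ i, ((univ.filter fun x : I → Bool => f (SSE.flip i x) ≠ f x).card : ℝ) := by
    simp_rw [card_filter]
    push_cast
    rw [sum_comm]
  rw [h0]
  simp_rw [mono_sens f hf]
  rw [sum_comm]
  simp_rw [← mul_sum]
  have h1 : ∀ x : I → Bool, (if f x = true then (1 : ℝ) else -1) * ∑ i, chi i x ≤ |∑ i, chi i x| := by
    intro x
    split_ifs
    · rw [one_mul]; exact le_abs_self _
    · rw [neg_one_mul]; exact neg_le_abs _
  refine (sum_le_sum fun x _ => h1 x).trans ?_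
  have h2 := sq_sum_le_card_mul_sum_sq (s := (univ : Finset (I → Bool))) (f := fun x => |∑ i, chi i x|)
  simp_rw [sq_abs] at h2
  rw [sum_sq, card_univ, Fintype.card_fun, Fintype.card_bool] at h2
  push_cast at h2
  refine le_of_sq_le_sq ?_ (by positivity)
  refine h2.trans (le_of_eq ?_)
  rw [mul_pow, Real.sq_sqrt (Nat.cast_nonneg _)]
  ring

theorem unate_sum (f : (I → Bool) → Bool) (hf : Unate f) :
    ∑ x : I → Bool, ((univ.filter fun i => f (SSE.flip i x) ≠ f x).card : ℝ) ≤
      2 ^ Fintype.card I * √(Fintype.card I) := by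
  obtain ⟨s, hs⟩ := hf
  have h1 := mono_sum _ hs
  refine le_trans (le_of_eq ?_) h1
  refine Fintype.sum_equiv ⟨fun x i => xor (x i) (s i), fun x i => xor (x i) (s i),
    fun x => by funext i; simp, fun x => by funext i; simp⟩ _ _ fun x => ?_
  have h2 : ∀ y : I → Bool, (fun i => xor (xor (y i) (s i)) (s i)) = y := fun y => by funext i; simp
  have h3 : ∀ i, (fun j => xor (SSE.flip i (fun j => xor (x j) (s j)) j) (s j)) = SSE.flip i x := by
    intro i
    funext j
    unfold SSE.flip
    by_cases hj : j = i
    · subst hj
      rw [Function.update_self, Function.update_self]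
      show ((!(xor (x j) (s j))) ^^ s j) = !(x j)
      cases x j <;> cases s j <;> rfl
    · rw [Function.update_of_ne hj, Function.update_of_ne hj]
      simp
  show _ = ((univ.filter fun i => f (fun j => xor (SSE.flip i (fun j => xor (x j) (s j)) j) (s j)) ≠
    f (fun j => xor (xor (x j) (s j)) (s j))).card : ℝ)
  simp_rw [h2, h3]

end

/-! ### Chains -/

section

open scoped Classical

variable {I : Type}

/-- A monotone function changes at most once along a chain. -/
theorem mono_chain (f : (I → Bool) → Bool) (hf : Monotone f) (z : ℕ → I → Bool) (hz : Monotone z)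
    (N : ℕ) : ((range N).filter fun j => f (z (j + 1)) ≠ f (z j)).card ≤ 1 := by
  rw [card_le_one]
  have key : ∀ a b : ℕ, a < b → f (z (a + 1)) ≠ f (z a) → f (z (b + 1)) ≠ f (z b) → False := by
    intro a b hab ha hb
    have h1 := hf (hz (Nat.le_succ a))
    have h2 := hf (hz (Nat.succ_le_of_lt hab))
    have h3 := hf (hz (Nat.le_succ b))
    change f (z a) ≤ f (z (a + 1)) at h1
    change f (z (a + 1)) ≤ f (z b) at h2
    change f (z b) ≤ f (z (b + 1)) at h3
    have h4 : ∀ p q r s : Bool, p ≤ q → q ≤ r → r ≤ s → q ≠ p → s ≠ r → False := by decide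
    exact h4 _ _ _ _ h1 h2 h3 ha hb
  intro a ha b hb
  rw [mem_filter] at ha hb
  by_contra hne
  rcases Nat.lt_or_gt_of_ne hne with h | h
  · exact key a b h ha.2 hb.2
  · exact key b a h hb.2 ha.2

/-- A function of `k` monotone functions changes at most `k` times along a chain. -/
theorem det_chain {K : Type} [Fintype K] {β : Type} (k : K → (I → Bool) → Bool)
    (hk : ∀ j, Monotone (k j)) (f : (I → Bool) → β) (d : (K → Bool) → β)
    (hf : ∀ x, f x = d fun j => k j x) (z : ℕ → I → Bool) (hz : Monotone z) (N : ℕ) :
    ((range N).filter fun j => f (z (j + 1)) ≠ f (z j)).card ≤ Fintype.card K := by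
  have h1 : ((range N).filter fun j => f (z (j + 1)) ≠ f (z j)) ⊆
      (univ : Finset K).biUnion fun i => (range N).filter fun j => k i (z (j + 1)) ≠ k i (z j) := by
    intro j hj
    rw [mem_filter] at hj
    rw [mem_biUnion]
    by_contra hcon
    push Not at hcon
    apply hj.2
    rw [hf, hf]
    congr 1
    funext i
    have := hcon i (mem_univ _)
    rw [mem_filter] at this
    push Not at this
    exact this hj.1
  refine (card_le_card h1).trans (card_biUnion_le.trans ?_)
  calc ∑ i, ((range N).filter fun j => k i (z (j + 1)) ≠ k i (z j)).card ≤ ∑ _i : K, 1 :=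
        sum_le_sum fun i _ => mono_chain _ (hk i) z hz N
    _ = Fintype.card K := by simp

end

end Pool.Agent.X246.ACR
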