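import Pool.Agent.X246.ACR.Fin

set_option autoImplicit false

/-!
# Circuits with few negations, and functions of few monotone functions
-/

namespace Pool.Agent.X246.ACR

open Finset Pool.Agent.Y601

/-- `Circ t l`: the functions in the list `l` are computed at the gates of a circuit with `t` NOT
gates. The other gates compute arbitrary monotone functions of all input bits and of the results of
all earlier gates. -/
inductive Circ {I : Type} : ℕ → List ((I → Bool) → Bool) → Prop
  | nil : Circ 0 []
  | mono {t : ℕ} {l : List ((I → Bool) → Bool)} (φ : (I → Bool) → (Fin l.length → Bool) → Bool)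
      (hφ : ∀ x y u v, x ≤ y → u ≤ v → φ x u ≤ φ y v) (hl : Circ t l) :
      Circ t ((fun x => φ x fun j => l.get j x) :: l)
  | not {t : ℕ} {l : List ((I → Bool) → Bool)} (f : (I → Bool) → Bool) (hf : f ∈ l)
      (hl : Circ t l) : Circ (t + 1) ((fun x => !f x) :: l)

/-- With `t` NOT gates every function is selected by the values of `2 ^ t - 1` monotone functions among
`2 ^ t` monotone functions. -/
theorem Circ.select {I : Type} {t : ℕ} {l : List ((I → Bool) → Bool)} (h : Circ t l) :
    ∃ (K S : Type) (_ : Fintype K) (_ : Fintype S), Fintype.card K + 1 = 2 ^ t ∧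
      Fintype.card S = 2 ^ t ∧ ∃ (k : K → (I → Bool) → Bool) (α : (K → Bool) → S),
        (∀ j, Monotone (k j)) ∧ ∀ f ∈ l, ∃ g : S → (I → Bool) → Bool,
          (∀ s, Monotone (g s)) ∧ ∀ x, f x = g (α fun j => k j x) x := by
  induction h with
  | nil =>
    refine ⟨Empty, Unit, inferInstance, inferInstance, by simp, by simp, fun j => j.elim,
      fun _ => (), fun j => j.elim, fun f hf => ?_⟩
    simp at hf
  | @mono t l φ hφ hl ih =>
    obtain ⟨K, S, _, _, hK, hS, k, α, hk, H⟩ := ih
    refine ⟨K, S, inferInstance, inferInstance, hK, hS, k, α, hk, fun f hf => ?_⟩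
    rcases List.mem_cons.1 hf with rfl | hf
    · choose g hg1 hg2 using fun j : Fin l.length => H (l.get j) (List.get_mem l j)
      refine ⟨fun s x => φ x fun j => g j s x, fun s x y hxy => ?_, fun x => ?_⟩
      · exact hφ _ _ _ _ hxy fun j => hg1 j s hxy
      · show φ x _ = φ x _
        congr 1
        funext j
        exact hg2 j x
    · exact H f hf
  | @not t l f0 hf0 hl ih =>
    obtain ⟨K, S, _, _, hK, hS, k, α, hk, H⟩ := ih
    obtain ⟨g, hg1, hg2⟩ := H f0 hf0
    refine ⟨K ⊕ S, S × Bool, inferInstance, inferInstance, ?_, ?_, Sum.elim k g,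
      fun v => (α fun j => v (Sum.inl j), v (Sum.inr (α fun j => v (Sum.inl j)))), ?_, ?_⟩
    · rw [Fintype.card_sum, hS, pow_succ]
      omega
    · rw [Fintype.card_prod, hS, Fintype.card_bool, pow_succ]
    · rintro (j | s)
      · exact hk j
      · exact hg1 s
    · intro f hf
      rcases List.mem_cons.1 hf with rfl | hf
      · refine ⟨fun p _ => !p.2, fun p x y _ => le_rfl, fun x => ?_⟩
        show (!f0 x) = !(g (α fun j => k j x) x)
        rw [hg2 x]
      · obtain ⟨g', hg1', hg2'⟩ := H f hf
        exact ⟨fun p => g' p.1, fun p => hg1' p.1, fun x => hg2' x⟩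

/-- With `t` NOT gates every function is a function of `2 ^ (t + 1) - 1` monotone functions. -/
theorem Circ.det {I : Type} {t : ℕ} {l : List ((I → Bool) → Bool)} (h : Circ t l)
    (f : (I → Bool) → Bool) (hf : f ∈ l) :
    ∃ (K : Type) (_ : Fintype K), Fintype.card K + 1 = 2 ^ (t + 1) ∧
      ∃ (k : K → (I → Bool) → Bool) (d : (K → Bool) → Bool),
        (∀ j, Monotone (k j)) ∧ ∀ x, f x = d fun j => k j x := by
  obtain ⟨K, S, _, _, hK, hS, k, α, hk, H⟩ := h.select
  obtain ⟨g, hg1, hg2⟩ := H f hf
  refine ⟨K ⊕ S, inferInstance, ?_, Sum.elim k g,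
    fun v => v (Sum.inr (α fun j => v (Sum.inl j))), ?_, hg2⟩
  · rw [Fintype.card_sum, hS, pow_succ]
    omega
  · rintro (j | s)
    · exact hk j
    · exact hg1 s

end Pool.Agent.X246.ACR
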