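import Pool.Agent.X246.ACR.Par

set_option autoImplicit false

/-!
# Reductions with few negations: the bounds
-/

namespace Pool.Agent.X246.ACR

open Finset Pool.Agent.Y601

open scoped Classical

section

variable {R K L : Type} [Fintype R]

/-- The lists of a yes instance and of a no instance differ at many places. -/
theorem pair_ne {sat : L → K → Prop} {y z : R → Option K} {ε δ m : ℝ} (hε : 0 ≤ ε) (hδ : 0 ≤ δ)
    (hεδ : ε + δ < 1)
    (hyes : ∃ l, (1 - ε) * total y ≤ good sat y l) (hno : ∀ l, good sat z l ≤ δ * total z)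
    (hy : m ≤ total y) (hz : m ≤ total z) :
    (1 - ε - δ) * m ≤ ((univ.filter fun r => z r ≠ y r).card : ℝ) := by
  obtain ⟨l, hl⟩ := hyes
  have h1 := hno l
  have h2 : (good sat y l : ℝ) ≤ good sat z l + lostc y z := by exact_mod_cast good_le sat y z l
  have h3 : (total z : ℝ) + lostc y z = total y + lostc z y := by exact_mod_cast total_add y z
  have h5 : (lostc y z : ℝ) ≤ ((univ.filter fun r => z r ≠ y r).card : ℝ) := by
    have : lostc y z ≤ (univ.filter fun r => z r ≠ y r).card :=
      card_le_card fun r hr => by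
        simp only [mem_filter, mem_univ, true_and] at hr ⊢
        exact hr.2
    exact_mod_cast this
  have h6 : (lostc z y : ℝ) ≤ ((univ.filter fun r => z r ≠ y r).card : ℝ) := by
    have : lostc z y ≤ (univ.filter fun r => z r ≠ y r).card :=
      card_le_card fun r hr => by
        simp only [mem_filter, mem_univ, true_and] at hr ⊢
        exact fun h => hr.2 h.symm
    exact_mod_cast this
  have hc : 0 < 1 - ε - δ := by linarith
  rcases le_total (total z : ℝ) (total y) with h | h
  · have h4 : (1 - ε - δ) * total y ≤ lostc y z := by nlinarith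
    nlinarith
  · have h4 : (1 - ε - δ) * total z ≤ lostc z y := by nlinarith
    nlinarith

end

section

variable {N : ℕ} {R K L : Type} [Fintype R]

/-- The input `1 ^ j 0 ^ (N - j)`. -/
def stair (N j : ℕ) : Fin N → Bool := fun i => decide (i.val < j)

theorem stair_mono (N : ℕ) : Monotone (stair N) := by
  intro a b hab i
  unfold stair
  apply Bool.le_iff_imp.2
  rw [decide_eq_true_iff, decide_eq_true_iff]
  omega

theorem stair_ones (N j : ℕ) (hj : j ≤ N) : (univ.filter fun i => stair N j i = true).card = j := by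
  unfold stair
  simp only [decide_eq_true_eq]
  have h : (univ.filter fun i : Fin N => i.val < j) = (univ : Finset (Fin j)).image
      (fun a => ⟨a.val, lt_of_lt_of_le a.isLt hj⟩) := by
    ext i
    simp only [mem_filter, mem_univ, true_and, mem_image]
    constructor
    · intro h
      exact ⟨⟨i.val, h⟩, rfl⟩
    · rintro ⟨a, rfl⟩
      exact a.isLt
  rw [h, card_image_of_injective, card_univ, Fintype.card_fin]
  intro a b hab
  simp only [Fin.mk.injEq] at hab
  exact Fin.ext hab

/-- The worst case bound. -/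
theorem stair_main {sat : L → K → Prop} {ε δ κ : ℝ} (hε : 0 ≤ ε) (hδ : 0 ≤ δ) (hεδ : ε + δ < 1)
    (Y : (Fin N → Bool) → R → Option K) (M : ℕ)
    (hA : ∀ j ≤ N, Correct sat ε δ Y (stair N j) ∧ κ * Fintype.card R ≤ total (Y (stair N j)))
    (hM : ∀ r, ((range N).filter fun j => Y (stair N (j + 1)) r ≠ Y (stair N j) r).card ≤ M) :
    (1 - ε - δ) * κ * N ≤ M := by
  have hR : (0 : ℝ) < Fintype.card R := by
    have h1 := (hA 0 (Nat.zero_le _)).1.1
    unfold total at h1
    have h2 : 1 ≤ Fintype.card R := h1.trans (card_le_univ _)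
    exact_mod_cast h2
  have h1 : ∀ j ∈ range N, (1 - ε - δ) * (κ * Fintype.card R) ≤
      ((univ.filter fun r => Y (stair N (j + 1)) r ≠ Y (stair N j) r).card : ℝ) := by
    intro j hj
    rw [mem_range] at hj
    obtain ⟨⟨-, ha1, ha2⟩, ha3⟩ := hA j hj.le
    obtain ⟨⟨-, hb1, hb2⟩, hb3⟩ := hA (j + 1) hj
    rw [stair_ones N j hj.le] at ha1 ha2
    rw [stair_ones N (j + 1) hj] at hb1 hb2
    by_cases h : Odd j
    · have h2 : ¬ Odd (j + 1) := by
        rw [Nat.not_odd_iff_even]
        exact h.add_one
      refine (pair_ne hε hδ hεδ (hb1 h2) (ha2 h) hb3 ha3).trans ?_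
      simp only [ne_comm]
      exact le_rfl
    · have h2 : Odd (j + 1) := (Nat.not_odd_iff_even.1 h).add_one
      exact pair_ne hε hδ hεδ (ha1 h) (hb2 h2) ha3 hb3
  have h2 := sum_le_sum h1
  rw [sum_const, card_range, nsmul_eq_mul] at h2
  have h3 : ∑ j ∈ range N, ((univ.filter fun r => Y (stair N (j + 1)) r ≠ Y (stair N j) r).card : ℝ) =
      ∑ r, (((range N).filter fun j => Y (stair N (j + 1)) r ≠ Y (stair N j) r).card : ℝ) := by
    simp_rw [card_filter]
    push_cast
    rw [sum_comm]
  rw [h3] at h2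
  have h4 : ∑ r, (((range N).filter fun j => Y (stair N (j + 1)) r ≠ Y (stair N j) r).card : ℝ) ≤
      ∑ _r : R, (M : ℝ) := sum_le_sum fun r _ => by exact_mod_cast hM r
  rw [sum_const, card_univ, nsmul_eq_mul] at h4
  have h5 : ((1 - ε - δ) * κ * N) * Fintype.card R ≤ M * Fintype.card R := by linarith
  exact le_of_mul_le_mul_right h5 hR

/-- The average case bound. -/
theorem avg_main {sat : L → K → Prop} {ε δ κ γ B : ℝ} (hε : 0 ≤ ε) (hδ : 0 ≤ δ) (hεδ : ε + δ < 1)
    (hκ : 0 ≤ κ) (hγ : 0 < γ) (Y : (Fin N → Bool) → R → Option K)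
    (hA : (1 / 2 + γ) * 2 ^ N ≤ ((univ.filter fun x =>
      Correct sat ε δ Y x ∧ κ * Fintype.card R ≤ total (Y x)).card : ℝ))
    (hB : ∀ r, ∑ x, ((univ.filter fun i => Y (SSE.flip i x) r ≠ Y x r).card : ℝ) ≤ B * 2 ^ N) :
    2 * (1 - ε - δ) * κ * γ * N ≤ B := by
  have hR : (0 : ℝ) < Fintype.card R := by
    by_contra hcon
    have h0 : Fintype.card R = 0 := by
      by_contra h
      exact hcon (by exact_mod_cast Nat.pos_of_ne_zero h)
    have h1 : (univ.filter fun x =>
        Correct sat ε δ Y x ∧ κ * Fintype.card R ≤ total (Y x)) = ∅ := by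
      apply filter_eq_empty_iff.2
      rintro x _ ⟨⟨h2, -⟩, -⟩
      unfold total at h2
      have h3 := h2.trans (card_le_univ _)
      omega
    rw [h1, card_empty, Nat.cast_zero] at hA
    have : (0 : ℝ) < (1 / 2 + γ) * 2 ^ N := by positivity
    linarith
  obtain ⟨A, hAdef⟩ : ∃ A : (Fin N → Bool) → Prop, A = fun x =>
    Correct sat ε δ Y x ∧ κ * Fintype.card R ≤ total (Y x) := ⟨_, rfl⟩
  have h0 : 0 ≤ (1 - ε - δ) * (κ * Fintype.card R) := by
    have : 0 ≤ 1 - ε - δ := by linarith
    positivity
  have h1 : ∀ (x : Fin N → Bool) (i : Fin N), (1 - ε - δ) * (κ * Fintype.card R) *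
      (if A x ∧ A (SSE.flip i x) then (1 : ℝ) else 0) ≤
      ((univ.filter fun r => Y (SSE.flip i x) r ≠ Y x r).card : ℝ) := by
    intro x i
    by_cases h : A x ∧ A (SSE.flip i x)
    · rw [if_pos h, mul_one]
      rw [hAdef] at h
      obtain ⟨⟨⟨-, ha1, ha2⟩, ha3⟩, ⟨⟨-, hb1, hb2⟩, hb3⟩⟩ := h
      by_cases hp : Odd (univ.filter fun i => x i = true).card
      · have h2 : ¬ Odd (univ.filter fun j => SSE.flip i x j = true).card := by
          rw [SSE.odd_flip i x]
          exact not_not.2 hp
        refine (pair_ne hε hδ hεδ (hb1 h2) (ha2 hp) hb3 ha3).trans ?_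
        simp only [ne_comm]
        exact le_rfl
      · have h2 : Odd (univ.filter fun j => SSE.flip i x j = true).card := (SSE.odd_flip i x).2 hp
        exact pair_ne hε hδ hεδ (ha1 hp) (hb2 h2) ha3 hb3
    · rw [if_neg h, mul_zero]
      exact Nat.cast_nonneg _
  have h2 : ∀ i : Fin N, (1 - ε - δ) * (κ * Fintype.card R) * (2 * γ * 2 ^ N) ≤
      ∑ x, ((univ.filter fun r => Y (SSE.flip i x) r ≠ Y x r).card : ℝ) := by
    intro i
    have h3 := pairs_ge A γ (by rw [hAdef, Fintype.card_fin]; convert hA) i
    rw [Fintype.card_fin] at h3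
    refine (mul_le_mul_of_nonneg_left h3 h0).trans ?_
    rw [mul_sum]
    exact sum_le_sum fun x _ => h1 x i
  have h3 := sum_le_sum fun i (_ : i ∈ (univ : Finset (Fin N))) => h2 i
  rw [sum_const, card_univ, Fintype.card_fin, nsmul_eq_mul] at h3
  have h4 : ∑ i : Fin N, ∑ x, ((univ.filter fun r => Y (SSE.flip i x) r ≠ Y x r).card : ℝ) =
      ∑ r, ∑ x, ((univ.filter fun i => Y (SSE.flip i x) r ≠ Y x r).card : ℝ) := by
    simp_rw [card_filter]
    push_cast
    rw [sum_comm, sum_comm (s := (univ : Finset R))]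
    exact sum_congr rfl fun x _ => sum_comm
  rw [h4] at h3
  have h5 : ∑ r, ∑ x, ((univ.filter fun i => Y (SSE.flip i x) r ≠ Y x r).card : ℝ) ≤
      ∑ _r : R, B * 2 ^ N := sum_le_sum fun r _ => hB r
  rw [sum_const, card_univ, nsmul_eq_mul] at h5
  have h6 : (2 * (1 - ε - δ) * κ * γ * N) * (Fintype.card R * 2 ^ N) ≤
      B * (Fintype.card R * 2 ^ N) := by linarith
  exact le_of_mul_le_mul_right h6 (by positivity)

end

/-- The function `f` is computed by a circuit with `t` NOT gates. -/
def NegComp {I : Type} (t : ℕ) (f : (I → Bool) → Bool) : Prop := ∃ l, Circ t l ∧ f ∈ l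

section

variable {N : ℕ} {R K L : Type} [Fintype R]

/-- The worst case bound for reductions with few negations. -/
theorem neg_worst {sat : L → K → Prop} {ε δ κ : ℝ} (hε : 0 ≤ ε) (hδ : 0 ≤ δ) (hεδ : ε + δ < 1)
    {b t : ℕ} (F : R → Fin b → (Fin N → Bool) → Bool) (hF : ∀ r j, NegComp t (F r j))
    (dec : R → (Fin b → Bool) → Option K)
    (hA : ∀ j ≤ N, Correct sat ε δ (fun x r => dec r fun j => F r j x) (stair N j) ∧
      κ * Fintype.card R ≤ total (fun r => dec r fun i => F r i (stair N j))) :
    (1 - ε - δ) * κ * N ≤ b * (2 ^ (t + 1) - 1) := by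
  have h := stair_main hε hδ hεδ (fun x r => dec r fun j => F r j x) (b * (2 ^ (t + 1) - 1)) hA ?_
  · refine h.trans (le_of_eq ?_)
    have : 1 ≤ 2 ^ (t + 1) := Nat.one_le_two_pow
    push_cast [Nat.cast_sub this]
    ring
  · intro r
    have h1 : ((range N).filter fun j => dec r (fun i => F r i (stair N (j + 1))) ≠
        dec r (fun i => F r i (stair N j))) ⊆
        (univ : Finset (Fin b)).biUnion fun i =>
          (range N).filter fun j => F r i (stair N (j + 1)) ≠ F r i (stair N j) := by
      intro j hj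
      rw [mem_filter] at hj
      rw [mem_biUnion]
      by_contra hcon
      push Not at hcon
      apply hj.2
      congr 1
      funext i
      have := hcon i (mem_univ _)
      rw [mem_filter] at this
      push Not at this
      exact this hj.1
    refine (card_le_card h1).trans (card_biUnion_le.trans ?_)
    calc ∑ i, ((range N).filter fun j => F r i (stair N (j + 1)) ≠ F r i (stair N j)).card ≤
          ∑ _i : Fin b, (2 ^ (t + 1) - 1) := by
          refine sum_le_sum fun i _ => ?_
          obtain ⟨l, hl, hmem⟩ := hF r i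
          obtain ⟨K', _, hK, k, d, hk, hd⟩ := hl.det _ hmem
          have h3 : ((range N).filter fun j => F r i (stair N (j + 1)) ≠ F r i (stair N j)).card ≤
              Fintype.card K' := by
            convert det_chain k hk _ d hd (stair N) (stair_mono N) N
          omega
      _ = _ := by rw [sum_const, card_univ, Fintype.card_fin, smul_eq_mul]

/-- A function of `k` monotone functions has average sensitivity at most `k √N`. -/
theorem det_sum {K' : Type} [Fintype K'] (k : K' → (Fin N → Bool) → Bool)
    (hk : ∀ j, Unate (k j)) (f : (Fin N → Bool) → Bool) (d : (K' → Bool) → Bool)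
    (hf : ∀ x, f x = d fun j => k j x) :
    ∑ x : Fin N → Bool, ((univ.filter fun i => f (SSE.flip i x) ≠ f x).card : ℝ) ≤
      Fintype.card K' * (2 ^ N * √N) := by
  have h1 : ∀ x : Fin N → Bool, ((univ.filter fun i => f (SSE.flip i x) ≠ f x).card : ℝ) ≤
      ∑ j, ((univ.filter fun i => k j (SSE.flip i x) ≠ k j x).card : ℝ) := by
    intro x
    have h2 : (univ.filter fun i => f (SSE.flip i x) ≠ f x) ⊆ (univ : Finset K').biUnion fun j =>
        univ.filter fun i => k j (SSE.flip i x) ≠ k j x := by
      intro i hi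
      rw [mem_filter] at hi
      rw [mem_biUnion]
      by_contra hcon
      push Not at hcon
      apply hi.2
      rw [hf, hf]
      congr 1
      funext j
      have := hcon j (mem_univ _)
      rw [mem_filter] at this
      push Not at this
      exact this (mem_univ _)
    exact_mod_cast (card_le_card h2).trans card_biUnion_le
  refine (sum_le_sum fun x _ => h1 x).trans ?_
  rw [sum_comm]
  calc ∑ j, ∑ x : Fin N → Bool, ((univ.filter fun i => k j (SSE.flip i x) ≠ k j x).card : ℝ) ≤
        ∑ _j : K', 2 ^ N * √N := by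
        refine sum_le_sum fun j _ => ?_
        have := unate_sum (k j) (hk j)
        rw [Fintype.card_fin] at this
        exact this
    _ = _ := by rw [sum_const, card_univ, nsmul_eq_mul]

theorem Monotone.unate {I : Type} {f : (I → Bool) → Bool} (h : Monotone f) : Unate f :=
  ⟨fun _ => false, by simpa using h⟩

/-- The average case bound for reductions with few negations. -/
theorem neg_avg {sat : L → K → Prop} {ε δ κ γ : ℝ} (hε : 0 ≤ ε) (hδ : 0 ≤ δ) (hεδ : ε + δ < 1)
    (hκ : 0 ≤ κ) (hγ : 0 < γ) {b t : ℕ} (F : R → Fin b → (Fin N → Bool) → Bool)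
    (hF : ∀ r j, NegComp t (F r j)) (dec : R → (Fin b → Bool) → Option K)
    (hA : (1 / 2 + γ) * 2 ^ N ≤ ((univ.filter fun x =>
      Correct sat ε δ (fun x r => dec r fun j => F r j x) x ∧
        κ * Fintype.card R ≤ total (fun r => dec r fun i => F r i x)).card : ℝ)) :
    2 * (1 - ε - δ) * κ * γ * √N ≤ b * (2 ^ (t + 1) - 1) := by
  have h := avg_main (B := b * ((2 ^ (t + 1) - 1) * √N)) hε hδ hεδ hκ hγ
    (fun x r => dec r fun j => F r j x) hA ?_
  · rcases Nat.eq_zero_or_pos N with h0 | h0
    · subst h0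
      have : (1 : ℝ) ≤ 2 ^ (t + 1) := one_le_pow₀ (by norm_num)
      have h3 : (0 : ℝ) ≤ b * (2 ^ (t + 1) - 1) := by
        apply mul_nonneg (Nat.cast_nonneg _)
        linarith
      simpa using h3
    · have hN : (0 : ℝ) < √N := Real.sqrt_pos.2 (by exact_mod_cast h0)
      have hsq : (N : ℝ) = √N * √N := (Real.mul_self_sqrt (Nat.cast_nonneg _)).symm
      have h2 : (2 * (1 - ε - δ) * κ * γ * √N) * √N ≤ (b * (2 ^ (t + 1) - 1)) * √N := by
        calc (2 * (1 - ε - δ) * κ * γ * √N) * √N = 2 * (1 - ε - δ) * κ * γ * (√N * √N) := by ring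
          _ = 2 * (1 - ε - δ) * κ * γ * N := by rw [← hsq]
          _ ≤ _ := h
          _ = _ := by ring
      exact le_of_mul_le_mul_right h2 hN
  · intro r
    have h1 : ∀ x : Fin N → Bool, ((univ.filter fun i => dec r (fun j => F r j (SSE.flip i x)) ≠
        dec r (fun j => F r j x)).card : ℝ) ≤
        ∑ j, ((univ.filter fun i => F r j (SSE.flip i x) ≠ F r j x).card : ℝ) := by
      intro x
      have h2 : (univ.filter fun i => dec r (fun j => F r j (SSE.flip i x)) ≠
          dec r (fun j => F r j x)) ⊆ (univ : Finset (Fin b)).biUnion fun j =>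
          univ.filter fun i => F r j (SSE.flip i x) ≠ F r j x := by
        intro i hi
        rw [mem_filter] at hi
        rw [mem_biUnion]
        by_contra hcon
        push Not at hcon
        apply hi.2
        congr 1
        funext j
        have := hcon j (mem_univ _)
        rw [mem_filter] at this
        push Not at this
        exact this (mem_univ _)
      exact_mod_cast (card_le_card h2).trans card_biUnion_le
    refine (sum_le_sum fun x _ => h1 x).trans ?_
    rw [sum_comm]
    calc ∑ j, ∑ x : Fin N → Bool, ((univ.filter fun i => F r j (SSE.flip i x) ≠ F r j x).card : ℝ) ≤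
          ∑ _j : Fin b, (2 ^ (t + 1) - 1) * (2 ^ N * √N) := by
          refine sum_le_sum fun j _ => ?_
          obtain ⟨l, hl, hmem⟩ := hF r j
          obtain ⟨K', _, hK, k, d, hk, hd⟩ := hl.det _ hmem
          have h3 := det_sum k (fun j => Monotone.unate (hk j)) _ d hd
          have h4 : (Fintype.card K' : ℝ) = 2 ^ (t + 1) - 1 := by
            have : (Fintype.card K' : ℝ) + 1 = 2 ^ (t + 1) := by exact_mod_cast hK
            linarith
          rw [h4] at h3
          exact h3
      _ = _ := by
          rw [sum_const, card_univ, Fintype.card_fin, nsmul_eq_mul]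
          ring

end

end Pool.Agent.X246.ACR
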