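import Pool.Agent.X246.ACR.Mono

set_option autoImplicit false

/-!
# Parity with few negations
-/

namespace Pool.Agent.X246.ACR

open Finset Pool.Agent.Y601

open scoped Classical

variable {I : Type}

/-- A function which is monotone in the inputs and the results of the earlier gates. -/
def Sem (l : List ((I → Bool) → Bool)) (f : (I → Bool) → Bool) : Prop :=
  ∀ x y, x ≤ y → (∀ g ∈ l, g x ≤ g y) → f x ≤ f y

theorem Circ.cons {t : ℕ} {l : List ((I → Bool) → Bool)} (hl : Circ t l) (f : (I → Bool) → Bool)
    (hf : Sem l f) : Circ t (f :: l) := by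
  obtain ⟨φ, hφ⟩ : ∃ φ : (I → Bool) → (Fin l.length → Bool) → Bool, φ = fun x u =>
      decide (∃ z, z ≤ x ∧ (∀ j, l.get j z ≤ u j) ∧ f z = true) := ⟨_, rfl⟩
  have h1 : ∀ x, f x = φ x fun j => l.get j x := by
    intro x
    rw [hφ]
    rw [Bool.eq_iff_iff, decide_eq_true_iff]
    constructor
    · intro h
      exact ⟨x, le_rfl, fun j => le_rfl, h⟩
    · rintro ⟨z, hz1, hz2, hz3⟩
      have h2 := hf z x hz1 fun g hg => by
        obtain ⟨j, rfl⟩ := List.get_of_mem hg
        exact hz2 j
      rw [hz3] at h2
      exact Bool.eq_true_of_true_le h2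
  have h2 : f = fun x => φ x fun j => l.get j x := funext h1
  rw [h2]
  refine Circ.mono φ (fun x y u v hxy huv => ?_) hl
  rw [hφ]
  show decide _ ≤ decide _
  apply Bool.le_iff_imp.2
  rw [decide_eq_true_iff, decide_eq_true_iff]
  rintro ⟨z, hz1, hz2, hz3⟩
  exact ⟨z, hz1.trans hxy, fun j => (hz2 j).trans (huv j), hz3⟩

/-- The parity of the number of the true members of a decreasing family. -/
theorem parity_chain (t : ℕ) : ∀ (c : ℕ) (l : List ((I → Bool) → Bool)), Circ c l →
    ∀ T : ℕ → (I → Bool) → Bool, (∀ k < 2 ^ (t + 1) - 1, Sem l (T k)) →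
    (∀ k x, T (k + 1) x ≤ T k x) →
    ∃ l', Circ (c + t) l' ∧
      (fun x => decide (Odd ((range (2 ^ (t + 1) - 1)).filter fun k => T k x = true).card)) ∈ l' := by
  induction t with
  | zero =>
    intro c l hl T hT _
    have h1 := hT 0 (by norm_num)
    refine ⟨T 0 :: l, hl.cons _ h1, ?_⟩
    have h2 : (fun x => decide (Odd ((range (2 ^ (0 + 1) - 1)).filter
        fun k => T k x = true).card)) = T 0 := by
      funext x
      have h3 : (range (2 ^ (0 + 1) - 1)) = {0} := by decide
      rw [h3, filter_singleton]
      cases h : T 0 x <;> simp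
    rw [h2]
    exact List.mem_cons_self
  | succ t ih =>
    intro c l hl T hT hdec
    obtain ⟨m, hm⟩ : ∃ m, m = 2 ^ (t + 1) - 1 := ⟨_, rfl⟩
    have hpos : 1 ≤ 2 ^ (t + 1) := Nat.one_le_two_pow
    have hn : 2 ^ (t + 1 + 1) - 1 = 2 * m + 1 := by
      rw [hm, pow_succ 2 (t + 1)]
      omega
    have heven : Even (m + 1) := by
      have : m + 1 = 2 ^ (t + 1) := by omega
      rw [this]
      exact (Nat.even_pow' (by omega)).2 even_two
    rw [hn] at hT
    have hdec' : ∀ (x : I → Bool) (a b : ℕ), a ≤ b → T b x ≤ T a x := fun x a b hab =>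
      antitone_nat_of_succ_le (f := fun k => T k x) (fun k => hdec k x) hab
    have c1 : Circ c (T m :: l) := hl.cons _ (hT m (by omega))
    have c2 : Circ (c + 1) ((fun x => !T m x) :: T m :: l) := Circ.not _ List.mem_cons_self c1
    obtain ⟨T', hT'⟩ : ∃ T' : ℕ → (I → Bool) → Bool, T' = fun k x =>
        if T m x = true then T (m + 1 + k) x else T k x := ⟨_, rfl⟩
    have h1 : ∀ k < 2 ^ (t + 1) - 1, Sem ((fun x => !T m x) :: T m :: l) (T' k) := by
      intro k hk x y hxy hg
      have h2 := hg (T m) (by simp)
      have h3 := hg (fun x => !T m x) (by simp)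
      have h4 : T m x = T m y := by
        have key : ∀ p q : Bool, p ≤ q → (!p) ≤ (!q) → p = q := by decide
        exact key _ _ h2 h3
      have hg' : ∀ g ∈ l, g x ≤ g y := fun g hgl => hg g (by simp [hgl])
      rw [hT']
      show (if T m x = true then T (m + 1 + k) x else T k x) ≤
        if T m y = true then T (m + 1 + k) y else T k y
      rw [h4]
      split_ifs
      · exact hT _ (by omega) x y hxy hg'
      · exact hT _ (by omega) x y hxy hg'
    have h2 : ∀ k x, T' (k + 1) x ≤ T' k x := by
      intro k x
      rw [hT']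
      show (if T m x = true then T (m + 1 + (k + 1)) x else T (k + 1) x) ≤
        if T m x = true then T (m + 1 + k) x else T k x
      split_ifs
      · exact hdec' x _ _ (by omega)
      · exact hdec' x _ _ (by omega)
    obtain ⟨l', hl', hmem⟩ := ih (c + 1) _ c2 T' h1 h2
    refine ⟨l', by rw [show c + (t + 1) = c + 1 + t by ring]; exact hl', ?_⟩
    convert hmem using 1
    funext x
    rw [hn, ← hm]
    have h3 : ((range (2 * m + 1)).filter fun k => T k x = true).card =
        ∑ k ∈ range (2 * m + 1), if T k x = true then 1 else 0 := card_filter _ _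
    have h4 : ((range m).filter fun k => T' k x = true).card =
        ∑ k ∈ range m, if T' k x = true then 1 else 0 := card_filter _ _
    rw [h3, h4, show 2 * m + 1 = m + 1 + m by ring, sum_range_add]
    by_cases hx : T m x = true
    · have h5 : ∑ k ∈ range (m + 1), (if T k x = true then 1 else 0) = m + 1 := by
        rw [sum_congr rfl (g := fun _ => 1) fun k hk => ?_]
        · simp
        · rw [mem_range] at hk
          have h6 := hdec' x k m (by omega)
          rw [hx] at h6
          rw [if_pos (Bool.eq_true_of_true_le h6)]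
      have h6 : ∀ k ∈ range m, (if T (m + 1 + k) x = true then 1 else 0) =
          if T' k x = true then 1 else 0 := by
        intro k _
        rw [hT']
        simp only [hx, if_true]
      rw [h5, sum_congr rfl h6]
      congr 1
      rw [Nat.odd_add', eq_iff_iff]
      constructor
      · intro h; exact h.2 heven
      · intro h; exact ⟨fun _ => heven, fun _ => h⟩
    · have h5 : ∑ k ∈ range m, (if T (m + 1 + k) x = true then 1 else 0) = 0 := by
        refine sum_eq_zero fun k _ => if_neg fun h => hx ?_
        have h6 := hdec' x m (m + 1 + k) (by omega)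
        rw [h] at h6
        exact Bool.eq_true_of_true_le h6
      have h6 : ∑ k ∈ range (m + 1), (if T k x = true then 1 else 0) =
          ∑ k ∈ range m, if T' k x = true then 1 else 0 := by
        rw [sum_range_succ, if_neg hx, add_zero]
        refine sum_congr rfl fun k _ => ?_
        rw [hT']
        simp only [hx, if_false]
        rfl
      rw [h5, h6, add_zero]

end Pool.Agent.X246.ACR
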