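import Pool.Agent.X246.ACR.NegUp

set_option autoImplicit false

/-!
# Reductions with thresholds: lower and upper bounds
-/

namespace Pool.Agent.X246.ACR

open Finset Pool.Agent.Y601

open scoped Classical

section lower

variable {N : ℕ} {R K L : Type} [Fintype R]

/-- A function of `s` unate functions has average sensitivity at most `s √N`. -/
theorem unate_fun_sum {s : ℕ} {β : Type} (k : Fin s → (Fin N → Bool) → Bool)
    (hk : ∀ j, Unate (k j)) (d : (Fin s → Bool) → β) :
    ∑ x : Fin N → Bool, ((univ.filter fun i => d (fun j => k j (SSE.flip i x)) ≠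
      d (fun j => k j x)).card : ℝ) ≤ s * (2 ^ N * √N) := by
  have h1 : ∀ x : Fin N → Bool, ((univ.filter fun i => d (fun j => k j (SSE.flip i x)) ≠
      d (fun j => k j x)).card : ℝ) ≤
      ∑ j, ((univ.filter fun i => k j (SSE.flip i x) ≠ k j x).card : ℝ) := by
    intro x
    have h2 : (univ.filter fun i => d (fun j => k j (SSE.flip i x)) ≠ d (fun j => k j x)) ⊆
        (univ : Finset (Fin s)).biUnion fun j =>
        univ.filter fun i => k j (SSE.flip i x) ≠ k j x := by
      intro i hi
      rw [mem_filter] at hi
      rw [mem_biUnion]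
      by_contra hcon
      push Not at hcon
      apply hi.2
      congr 1
      funext j
      have := hcon j (mem_univ _)
      rw [mem_filter] at this
      push Not at this
      exact this (mem_univ _)
    exact_mod_cast (card_le_card h2).trans card_biUnion_le
  refine (sum_le_sum fun x _ => h1 x).trans ?_
  rw [sum_comm]
  calc ∑ j, ∑ x : Fin N → Bool, ((univ.filter fun i => k j (SSE.flip i x) ≠ k j x).card : ℝ) ≤
        ∑ _j : Fin s, 2 ^ N * √N := by
        refine sum_le_sum fun j _ => ?_
        have := unate_sum (k j) (hk j)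
        rw [Fintype.card_fin] at this
        exact this
    _ = _ := by rw [sum_const, card_univ, Fintype.card_fin, nsmul_eq_mul]

/-- The bound for reductions with unate functions. -/
theorem unate_avg {sat : L → K → Prop} {ε δ κ γ : ℝ} (hε : 0 ≤ ε) (hδ : 0 ≤ δ) (hεδ : ε + δ < 1)
    (hκ : 0 ≤ κ) (hγ : 0 < γ) {s : ℕ} (k : R → Fin s → (Fin N → Bool) → Bool)
    (hk : ∀ r j, Unate (k r j)) (dec : R → (Fin s → Bool) → Option K)
    (hA : (1 / 2 + γ) * 2 ^ N ≤ ((univ.filter fun x =>
      Correct sat ε δ (fun x r => dec r fun j => k r j x) x ∧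
        κ * Fintype.card R ≤ total (fun r => dec r fun i => k r i x)).card : ℝ)) :
    2 * (1 - ε - δ) * κ * γ * √N ≤ s := by
  have h := avg_main (B := s * √N) hε hδ hεδ hκ hγ (fun x r => dec r fun j => k r j x) hA
    (fun r => by
      have h1 := unate_fun_sum (k r) (hk r) (dec r)
      have h2 : (s : ℝ) * (2 ^ N * √N) = s * √N * 2 ^ N := by ring
      rw [h2] at h1
      convert h1)
  rcases Nat.eq_zero_or_pos N with h0 | h0
  · subst h0
    simp
  · have hN : (0 : ℝ) < √N := Real.sqrt_pos.2 (by exact_mod_cast h0)
    have hsq : (N : ℝ) = √N * √N := (Real.mul_self_sqrt (Nat.cast_nonneg _)).symm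
    have h2 : (2 * (1 - ε - δ) * κ * γ * √N) * √N ≤ s * √N := by
      calc (2 * (1 - ε - δ) * κ * γ * √N) * √N = 2 * (1 - ε - δ) * κ * γ * (√N * √N) := by ring
        _ = 2 * (1 - ε - δ) * κ * γ * N := by rw [← hsq]
        _ ≤ _ := h
    exact le_of_mul_le_mul_right h2 hN

end lower

/-! ### Pairwise independent signs -/

section signs

variable {m : ℕ}

/-- the sign `-1` if both bits are true -/
def sg (a b : Bool) : ℝ := if (a && b) = true then -1 else 1

/-- the sign of `i` for the seed `z` -/
noncomputable def hs (c : Fin m → Bool) (z : Fin m → Bool) : ℝ := ∏ t, sg (z t) (c t)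

theorem sg_not (a b : Bool) : sg (!a) b = (if b = true then -1 else 1) * sg a b := by
  unfold sg
  cases a <;> cases b <;> simp

theorem hs_flip (c z : Fin m → Bool) (t : Fin m) :
    hs c (SSE.flip t z) = (if c t = true then -1 else 1) * hs c z := by
  unfold hs
  rw [← mul_prod_erase univ _ (mem_univ t), ← mul_prod_erase univ (fun u => sg (z u) (c u))
    (mem_univ t)]
  have h1 : SSE.flip t z t = !z t := by
    unfold SSE.flip
    rw [Function.update_self]
  have h2 : ∏ u ∈ univ.erase t, sg (SSE.flip t z u) (c u) = ∏ u ∈ univ.erase t, sg (z u) (c u) := by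
    refine prod_congr rfl fun u hu => ?_
    unfold SSE.flip
    rw [Function.update_of_ne (ne_of_mem_erase hu)]
  rw [h1, h2, sg_not]
  ring

theorem hs_sq (c z : Fin m → Bool) : hs c z * hs c z = 1 := by
  unfold hs
  rw [← prod_mul_distrib]
  refine prod_eq_one fun t _ => ?_
  unfold sg
  cases z t <;> cases c t <;> simp

theorem hs_cases (c z : Fin m → Bool) : hs c z = 1 ∨ hs c z = -1 :=
  mul_self_eq_one_iff.1 (hs_sq c z)

theorem sum_hs {c c' : Fin m → Bool} (h : c ≠ c') : ∑ z, hs c z * hs c' z = 0 := by
  obtain ⟨t, ht⟩ := Function.ne_iff.1 h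
  have h1 := sum_flip t fun z => hs c z * hs c' z
  simp only [hs_flip] at h1
  have h2 : ∑ z, (if c t = true then -1 else 1) * hs c z * ((if c' t = true then -1 else 1) * hs c' z) =
      -∑ z, hs c z * hs c' z := by
    rw [← sum_neg_distrib]
    refine sum_congr rfl fun z _ => ?_
    cases h3 : c t <;> cases h4 : c' t
    · exact absurd (h3.trans h4.symm) ht
    · simp
    · simp
    · exact absurd (h3.trans h4.symm) ht
  rw [h2] at h1
  linarith

/-- The second moment of a random signed sum. -/
theorem sum_signed {N : ℕ} (c : Fin N → Fin m → Bool) (hc : Function.Injective c)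
    (x : Fin N → Bool) :
    ∑ z, (∑ i, hs (c i) z * chi i x) ^ 2 = N * 2 ^ m := by
  have h1 : ∀ z : Fin m → Bool, (∑ i, hs (c i) z * chi i x) ^ 2 =
      ∑ i, ∑ j, (chi i x * chi j x) * (hs (c i) z * hs (c j) z) := by
    intro z
    rw [sq, sum_mul_sum]
    exact sum_congr rfl fun i _ => sum_congr rfl fun j _ => by ring
  simp_rw [h1]
  rw [sum_comm]
  have h2 : ∀ i : Fin N, ∑ z : Fin m → Bool, ∑ j, (chi i x * chi j x) * (hs (c i) z * hs (c j) z) =
      2 ^ m := by
    intro i
    rw [sum_comm, sum_eq_single i]
    · simp_rw [chi_sq, hs_sq]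
      rw [sum_const, card_univ, Fintype.card_fun, Fintype.card_bool, Fintype.card_fin]
      simp
    · intro j _ hj
      rw [← mul_sum, sum_hs fun h => hj (hc h).symm, mul_zero]
    · intro h
      exact absurd (mem_univ i) h
  simp_rw [h2]
  rw [sum_const, card_univ, nsmul_eq_mul, Fintype.card_fin]

/-- the input, with the bits changed at the places with a negative sign -/
noncomputable def twist {N : ℕ} (c : Fin N → Fin m → Bool) (z : Fin m → Bool) (x : Fin N → Bool) :
    Fin N → Bool := fun i => xor (x i) (decide (hs (c i) z = -1))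

theorem chi_twist {N : ℕ} (c : Fin N → Fin m → Bool) (z : Fin m → Bool) (x : Fin N → Bool)
    (i : Fin N) : chi i (twist c z x) = hs (c i) z * chi i x := by
  unfold chi twist
  rcases hs_cases (c i) z with h | h
  · rw [h]
    norm_num
  · rw [h]
    cases x i <;> simp

theorem sum_twist {N : ℕ} (c : Fin N → Fin m → Bool) (z : Fin m → Bool) (x : Fin N → Bool) :
    ∑ i, hs (c i) z * chi i x = 2 * (ones (twist c z x) : ℝ) - N := by
  rw [← sum_chi]
  exact sum_congr rfl fun i _ => (chi_twist c z x i).symm

/-- the number of negative signs -/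
noncomputable def negs {N : ℕ} (c : Fin N → Fin m → Bool) (z : Fin m → Bool) : ℕ :=
  (univ.filter fun i => hs (c i) z = -1).card

theorem odd_xor {N : ℕ} (x y : Fin N → Bool) :
    Odd (ones fun i => xor (x i) (y i)) ↔ Odd (ones x + ones y) := by
  have h : ∀ (S : Finset (Fin N)), (Odd (S.filter fun i => (xor (x i) (y i)) = true).card ↔
      Odd ((S.filter fun i => x i = true).card + (S.filter fun i => y i = true).card)) := by
    intro S
    induction S using Finset.induction_on with
    | empty => simp
    | insert a S ha ih =>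
      rw [filter_insert, filter_insert, filter_insert]
      cases hx : x a <;> cases hy : y a
      · simpa using ih
      · simp only [Bool.false_xor, if_true, Bool.false_eq_true, if_false]
        rw [card_insert_of_notMem (by simp [ha]), card_insert_of_notMem (by simp [ha]), Nat.odd_add_one, ih,
          ← add_assoc, Nat.odd_add_one]
      · simp only [Bool.xor_false, if_true, Bool.false_eq_true, if_false]
        rw [card_insert_of_notMem (by simp [ha]), card_insert_of_notMem (by simp [ha]), Nat.odd_add_one, ih,
          show ∀ p q : ℕ, p + 1 + q = (p + q) + 1 by intros; ring, Nat.odd_add_one]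
      · simp only [Bool.xor_self, if_true, Bool.false_eq_true, if_false]
        rw [card_insert_of_notMem (by simp [ha]), card_insert_of_notMem (by simp [ha]), ih,
          show ∀ p q : ℕ, p + 1 + (q + 1) = (p + q) + 1 + 1 by intros; ring, Nat.odd_add_one,
          Nat.odd_add_one, not_not]
  exact h univ

theorem odd_twist {N : ℕ} (c : Fin N → Fin m → Bool) (z : Fin m → Bool) (x : Fin N → Bool) :
    Odd (ones x) ↔ Odd (ones (twist c z x) + negs c z) := by
  have h1 := odd_xor x (fun i => decide (hs (c i) z = -1))
  have h2 : ones (fun i => decide (hs (c i) z = -1)) = negs c z := by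
    unfold ones negs
    simp
  rw [h2] at h1
  have h3 : Odd (ones (twist c z x)) ↔ Odd (ones x + negs c z) := h1
  rw [Nat.odd_add, h3, Nat.odd_add]
  by_cases ha : Odd (ones x) <;> by_cases hb : Even (negs c z) <;> simp [ha, hb]

end signs

/-- A linear threshold function with the weights `1` and `-1`. -/
def SignThreshold {N : ℕ} (f : (Fin N → Bool) → Bool) : Prop :=
  ∃ (w : Fin N → ℤ) (θ : ℤ), (∀ i, w i = 1 ∨ w i = -1) ∧
    ∀ x, f x = true ↔ θ ≤ ∑ i, if x i = true then w i else 0

theorem signThreshold_twist {N m : ℕ} (c : Fin N → Fin m → Bool) (z : Fin m → Bool) (j : ℕ) :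
    SignThreshold fun x : Fin N → Bool => decide (j ≤ ones (twist c z x)) := by
  refine ⟨fun i => if hs (c i) z = -1 then -1 else 1, j - negs c z, fun i => ?_, fun x => ?_⟩
  · dsimp only
    split_ifs
    · exact Or.inr rfl
    · exact Or.inl rfl
  · rw [decide_eq_true_iff]
    have h : (ones (twist c z x) : ℤ) = negs c z +
        ∑ i, if x i = true then (if hs (c i) z = -1 then (-1 : ℤ) else 1) else 0 := by
      unfold ones negs twist
      rw [card_filter, card_filter]
      push_cast
      rw [← sum_add_distrib]
      refine sum_congr rfl fun i _ => ?_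
      by_cases h1 : hs (c i) z = -1 <;> cases x i <;> simp [h1]
    rw [sub_le_iff_le_add, add_comm _ (negs c z : ℤ), ← h]
    exact_mod_cast Iff.rfl

/-- Linear threshold functions are unate. -/
theorem unate_of_threshold {N : ℕ} (f : (Fin N → Bool) → Bool) (w : Fin N → ℝ) (θ : ℝ)
    (h : ∀ x, f x = true ↔ θ ≤ ∑ i, if x i = true then w i else 0) : Unate f := by
  refine ⟨fun i => decide (w i < 0), fun x y hxy => ?_⟩
  apply Bool.le_iff_imp.2
  rw [h, h]
  intro h1
  refine h1.trans (sum_le_sum fun i _ => ?_)
  have h2 := hxy i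
  by_cases h3 : w i < 0
  · cases hx : x i <;> cases hy : y i
    · simp [h3]
    · simp [h3, h3.le]
    · rw [hx, hy] at h2
      exact absurd (Bool.eq_true_of_true_le h2) (by simp)
    · simp [h3]
  · cases hx : x i <;> cases hy : y i
    · simp [h3]
    · simp [h3, not_lt.1 h3]
    · rw [hx, hy] at h2
      exact absurd (Bool.eq_true_of_true_le h2) (by simp)
    · simp [h3]

end Pool.Agent.X246.ACR
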