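import Pool.Agent.X246.ACR.Sse

set_option autoImplicit false

/-!
# Reductions to weighted vertex cover and average sensitivity
-/

namespace Pool.Agent.X246.ACR

open Finset Pool.Agent.Y601

open scoped Classical

section wpairs

variable {N : ℕ} {R β : Type} [Fintype R]

/-- The weight of the changed entries. -/
noncomputable def chw (ω : R → ℝ) (y z : R → β) : ℝ := ∑ r, if z r ≠ y r then ω r else 0

/-- Double counting of the changed entries with weights, average case. -/
theorem wpairs_main (Y : (Fin N → Bool) → R → β) (ω : R → ℝ) (hω : ∀ r, 0 ≤ ω r)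
    (A : (Fin N → Bool) → Prop) (m B γ : ℝ) (hm : 0 ≤ m)
    (hpair : ∀ x i, A x → A (SSE.flip i x) → m ≤ chw ω (Y x) (Y (SSE.flip i x)))
    (hA : (1 / 2 + γ) * 2 ^ N ≤ ((univ.filter fun x => A x).card : ℝ))
    (hB : ∀ r, ∑ x, ((univ.filter fun i => Y (SSE.flip i x) r ≠ Y x r).card : ℝ) ≤ B * 2 ^ N) :
    2 * γ * N * m ≤ (∑ r, ω r) * B := by
  have hnn : ∀ y z : R → β, 0 ≤ chw ω y z := fun y z =>
    sum_nonneg fun r _ => by split_ifs <;> [exact hω r; exact le_rfl]
  have h1 : ∀ (x : Fin N → Bool) (i : Fin N), m * (if A x ∧ A (SSE.flip i x) then (1 : ℝ) else 0) ≤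
      chw ω (Y x) (Y (SSE.flip i x)) := by
    intro x i
    by_cases h : A x ∧ A (SSE.flip i x)
    · rw [if_pos h, mul_one]
      exact hpair x i h.1 h.2
    · rw [if_neg h, mul_zero]
      exact hnn _ _
  have h2 : ∀ i : Fin N, m * (2 * γ * 2 ^ N) ≤ ∑ x, chw ω (Y x) (Y (SSE.flip i x)) := by
    intro i
    have h3 := pairs_ge A γ (by rw [Fintype.card_fin]; exact hA) i
    rw [Fintype.card_fin] at h3
    refine (mul_le_mul_of_nonneg_left h3 hm).trans ?_
    rw [mul_sum]
    exact sum_le_sum fun x _ => h1 x i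
  have h3 := sum_le_sum fun i (_ : i ∈ (univ : Finset (Fin N))) => h2 i
  rw [sum_const, card_univ, Fintype.card_fin, nsmul_eq_mul] at h3
  have h4 : ∑ i : Fin N, ∑ x, chw ω (Y x) (Y (SSE.flip i x)) =
      ∑ r, ω r * ∑ x, ((univ.filter fun i => Y (SSE.flip i x) r ≠ Y x r).card : ℝ) := by
    unfold chw
    simp_rw [card_filter]
    push_cast
    rw [sum_comm]
    simp_rw [mul_sum]
    rw [sum_comm (s := (univ : Finset R))]
    refine sum_congr rfl fun x _ => ?_
    rw [sum_comm]
    refine sum_congr rfl fun r _ => ?_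
    refine sum_congr rfl fun i _ => ?_
    split_ifs <;> simp
  rw [h4] at h3
  have h5 : ∑ r, ω r * ∑ x, ((univ.filter fun i => Y (SSE.flip i x) r ≠ Y x r).card : ℝ) ≤
      ∑ r, ω r * (B * 2 ^ N) := sum_le_sum fun r _ => mul_le_mul_of_nonneg_left (hB r) (hω r)
  rw [← sum_mul] at h5
  have h6 : (2 * γ * N * m) * 2 ^ N ≤ ((∑ r, ω r) * B) * 2 ^ N := by linarith
  exact le_of_mul_le_mul_right h6 (by positivity)

/-- Double counting of the changed entries with weights along the staircase. -/
theorem wstair_pairs (Y : (Fin N → Bool) → R → β) (ω : R → ℝ) (hω : ∀ r, 0 ≤ ω r) (m : ℝ) (M : ℝ)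
    (hpair : ∀ j < N, m ≤ chw ω (Y (stair N j)) (Y (stair N (j + 1))))
    (hM : ∀ r, (((range N).filter fun j => Y (stair N (j + 1)) r ≠ Y (stair N j) r).card : ℝ) ≤ M) :
    N * m ≤ (∑ r, ω r) * M := by
  have h2 := sum_le_sum fun j (hj : j ∈ range N) => hpair j (mem_range.1 hj)
  rw [sum_const, card_range, nsmul_eq_mul] at h2
  have h3 : ∑ j ∈ range N, chw ω (Y (stair N j)) (Y (stair N (j + 1))) =
      ∑ r, ω r * (((range N).filter fun j => Y (stair N (j + 1)) r ≠ Y (stair N j) r).card : ℝ) := by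
    unfold chw
    simp_rw [card_filter]
    push_cast
    rw [sum_comm]
    simp_rw [mul_sum]
    refine sum_congr rfl fun r _ => ?_
    refine sum_congr rfl fun i _ => ?_
    split_ifs <;> simp
  rw [h3] at h2
  refine h2.trans ?_
  rw [sum_mul]
  exact sum_le_sum fun r _ => mul_le_mul_of_nonneg_left (hM r) (hω r)

end wpairs

section vc

variable {V : Type} [Fintype V]

/-- The set `C` covers the edges of the graph in which the neighbours of `u` are `nb u`. -/
def Covers (nb : V → Finset V) (C : Finset V) : Prop := ∀ u v, v ∈ nb u → u ∈ C ∨ v ∈ C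

/-- The weighted graph and the number `t` are right for the parity `p` (true: odd) of the input and
the ratio `c`: a cover of weight at most `t`, or no cover of weight less than `c t`. -/
structure VcRight (c τ : ℝ) (ω : V → ℝ) (p : Prop) (nb : V → Finset V) (w : V → ℝ) (t : ℝ) :
    Prop where
  symm : ∀ u v, v ∈ nb u → u ∈ nb v
  irrefl : ∀ u, u ∉ nb u
  weight_nonneg : ∀ u, 0 ≤ w u
  weight_le : ∀ u, w u ≤ ω u
  threshold : τ * ∑ u, ω u ≤ t
  yes : ¬ p → ∃ C, Covers nb C ∧ ∑ u ∈ C, w u ≤ t
  no : p → ∀ C, Covers nb C → c * t ≤ ∑ u ∈ C, w u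

/-- An instance as a family of entries. -/
noncomputable def entries (nb : V → Finset V) (w : V → ℝ) (t : ℝ) : Option V → Finset V × ℝ
  | none => (∅, t)
  | some u => (nb u, w u)

/-- The weights of the entries. -/
noncomputable def entW (c τ : ℝ) (ω : V → ℝ) : Option V → ℝ
  | none => (c - 1) * (τ * ∑ u, ω u)
  | some u => ω u

theorem chw_symm {R β : Type} [Fintype R] (ω : R → ℝ) (y z : R → β) : chw ω y z = chw ω z y := by
  unfold chw
  refine sum_congr rfl fun r _ => ?_
  by_cases h : z r = y r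
  · simp [h]
  · simp [h, Ne.symm h]

theorem vc_pair_aux {c τ : ℝ} {ω : V → ℝ} (hω : ∀ u, 0 ≤ ω u) (hc : 1 ≤ c) (hτ : 0 ≤ τ)
    {p q : Prop} (hp : ¬ p) (hq : q)
    {nb nb' : V → Finset V} {w w' : V → ℝ} {t t' : ℝ} (h : VcRight c τ ω p nb w t)
    (h' : VcRight c τ ω q nb' w' t') :
    (c - 1) * (τ * ∑ u, ω u) ≤ chw (entW c τ ω) (entries nb w t) (entries nb' w' t') := by
  have hΩ : 0 ≤ ∑ u, ω u := sum_nonneg fun u _ => hω u
  have hnn : ∀ r, 0 ≤ entW c τ ω r := by
    intro r
    cases r with
    | none => exact mul_nonneg (by linarith) (mul_nonneg hτ hΩ)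
    | some u => exact hω u
  have hsplit : chw (entW c τ ω) (entries nb w t) (entries nb' w' t') =
      (if t' ≠ t then (c - 1) * (τ * ∑ u, ω u) else 0) +
        ∑ u, if (nb' u, w' u) ≠ (nb u, w u) then ω u else 0 := by
    unfold chw
    rw [Fintype.sum_option]
    congr 1
    · simp only [entries, entW, ne_eq, Prod.mk.injEq, true_and]
    · refine sum_congr rfl fun u _ => ?_
      by_cases hu : (nb' u, w' u) = (nb u, w u)
      · rw [if_neg (not_not.2 hu), if_neg]
        exact not_not.2 hu
      · rw [if_pos hu, if_pos]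
        · rfl
        · exact hu
  have hnn2 : 0 ≤ ∑ u, if (nb' u, w' u) ≠ (nb u, w u) then ω u else 0 :=
    sum_nonneg fun u _ => by split_ifs <;> [exact hω u; exact le_rfl]
  rw [hsplit]
  by_cases ht : t' = t
  · rw [if_neg (not_not.2 ht), zero_add]
    obtain ⟨C, hC, hCt⟩ := h.yes hp
    obtain ⟨T, hT⟩ : ∃ T : Finset V, T = univ.filter fun u => (nb' u, w' u) ≠ (nb u, w u) :=
      ⟨_, rfl⟩
    have hcov : Covers nb' (C \ T ∪ T) := by
      intro u v huv
      by_cases hu : u ∈ T
      · left; exact mem_union_right _ hu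
      · by_cases hv : v ∈ T
        · right; exact mem_union_right _ hv
        · have h1 : nb' u = nb u := by
            rw [hT, mem_filter] at hu
            push Not at hu
            exact (Prod.mk.inj (hu (mem_univ _))).1
          rw [h1] at huv
          rcases hC u v huv with h2 | h2
          · left; exact mem_union_left _ (mem_sdiff.2 ⟨h2, hu⟩)
          · right; exact mem_union_left _ (mem_sdiff.2 ⟨h2, hv⟩)
    have h1 := h'.no hq _ hcov
    have hdisj : Disjoint (C \ T) T := sdiff_disjoint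
    rw [sum_union hdisj] at h1
    have h2 : ∑ u ∈ C \ T, w' u ≤ t := by
      have h3 : ∑ u ∈ C \ T, w' u = ∑ u ∈ C \ T, w u := by
        refine sum_congr rfl fun u hu => ?_
        have h4 := (mem_sdiff.1 hu).2
        rw [hT, mem_filter] at h4
        push Not at h4
        exact (Prod.mk.inj (h4 (mem_univ _))).2
      rw [h3]
      refine le_trans ?_ hCt
      exact sum_le_sum_of_subset_of_nonneg sdiff_subset fun u _ _ => h.weight_nonneg u
    have h3 : ∑ u ∈ T, w' u ≤ ∑ u, if (nb' u, w' u) ≠ (nb u, w u) then ω u else 0 := by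
      rw [← sum_filter]
      have h5 : ∑ u ∈ T, w' u ≤ ∑ u ∈ T, ω u := sum_le_sum fun u _ => h'.weight_le u
      rw [hT] at h5 ⊢
      exact h5
    have h4 : (c - 1) * (τ * ∑ u, ω u) ≤ (c - 1) * t :=
      mul_le_mul_of_nonneg_left h.threshold (by linarith)
    rw [ht] at h1
    linarith
  · rw [if_pos ht]
    linarith

theorem vc_pair {c τ : ℝ} {ω : V → ℝ} (hω : ∀ u, 0 ≤ ω u) (hc : 1 ≤ c) (hτ : 0 ≤ τ)
    {p q : Prop} (hpq : q ↔ ¬ p)
    {nb nb' : V → Finset V} {w w' : V → ℝ} {t t' : ℝ} (h : VcRight c τ ω p nb w t)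
    (h' : VcRight c τ ω q nb' w' t') :
    (c - 1) * (τ * ∑ u, ω u) ≤ chw (entW c τ ω) (entries nb w t) (entries nb' w' t') := by
  by_cases hp : p
  · have hq : ¬ q := fun h => (hpq.1 h) hp
    rw [chw_symm]
    exact vc_pair_aux hω hc hτ hq hp h' h
  · exact vc_pair_aux hω hc hτ hp (hpq.2 hp) h h'

theorem entW_nonneg {c τ : ℝ} {ω : V → ℝ} (hω : ∀ u, 0 ≤ ω u) (hc : 1 ≤ c) (hτ : 0 ≤ τ) :
    ∀ r, 0 ≤ entW c τ ω r := by
  intro r
  cases r with
  | none => exact mul_nonneg (by linarith) (mul_nonneg hτ (sum_nonneg fun u _ => hω u))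
  | some u => exact hω u

/-- If some odd input is right then `c τ ≤ 1`. -/
theorem VcRight.bound {c τ : ℝ} {ω : V → ℝ} (hc : 1 ≤ c) {p : Prop}
    (hΩ : 0 < ∑ u, ω u) {nb : V → Finset V} {w : V → ℝ} {t : ℝ} (h : VcRight c τ ω p nb w t)
    (hp : p) : (c - 1) * τ ≤ 1 := by
  have h1 := h.no hp univ fun u v _ => Or.inl (mem_univ u)
  have h2 : ∑ u, w u ≤ ∑ u, ω u := sum_le_sum fun u _ => h.weight_le u
  have h3 : c * (τ * ∑ u, ω u) ≤ c * t := mul_le_mul_of_nonneg_left h.threshold (by linarith)
  have h4 : c * τ * ∑ u, ω u ≤ 1 * ∑ u, ω u := by linarith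
  have h5 := le_of_mul_le_mul_right h4 hΩ
  by_cases hτ : 0 ≤ τ
  · nlinarith
  · push Not at hτ
    nlinarith

theorem sum_entW {c τ : ℝ} {ω : V → ℝ} :
    ∑ r, entW c τ ω r = (1 + (c - 1) * τ) * ∑ u, ω u := by
  rw [Fintype.sum_option]
  unfold entW
  ring

/-- The general bound: instances in which the neighbourhood and the weight of every vertex, and the
threshold, are functions of `s` functions of average sensitivity at most `A`. -/
theorem vc_main {N s : ℕ} {c τ γ A : ℝ} {ω : V → ℝ} (hω : ∀ u, 0 ≤ ω u) (hΩ : 0 < ∑ u, ω u)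
    (hc : 1 ≤ c) (hτ : 0 ≤ τ) (hγ : 0 < γ)
    (f : Option V → Fin s → (Fin N → Bool) → Bool)
    (nb : V → (Fin s → Bool) → Finset V) (w : V → (Fin s → Bool) → ℝ) (t : (Fin s → Bool) → ℝ)
    (hf : ∀ u i, tsens (f u i) ≤ 2 ^ N * A)
    (hA : (1 / 2 + γ) * 2 ^ N ≤ ((univ.filter fun x : Fin N → Bool =>
      VcRight c τ ω (Odd (univ.filter fun i => x i = true).card)
        (fun u => nb u fun i => f (some u) i x) (fun u => w u fun i => f (some u) i x)
        (t fun i => f none i x)).card : ℝ)) :
    (c - 1) * τ * γ * N ≤ s * A := by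
  obtain ⟨dec, hdec⟩ : ∃ dec : Option V → (Fin s → Bool) → Finset V × ℝ,
      dec = fun r z => entries (fun u => nb u z) (fun u => w u z) (t z) r := ⟨_, rfl⟩
  have hY : ∀ x : Fin N → Bool, entries (fun u => nb u fun i => f (some u) i x)
      (fun u => w u fun i => f (some u) i x) (t fun i => f none i x) =
      fun r => dec r fun i => f r i x := by
    intro x
    funext r
    rw [hdec]
    cases r <;> rfl
  obtain ⟨P, hP⟩ : ∃ P : (Fin N → Bool) → Prop, P = fun x =>
      VcRight c τ ω (Odd (univ.filter fun i => x i = true).card)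
        (fun u => nb u fun i => f (some u) i x) (fun u => w u fun i => f (some u) i x)
        (t fun i => f none i x) := ⟨_, rfl⟩
  have hm : 0 ≤ (c - 1) * (τ * ∑ u, ω u) := mul_nonneg (by linarith) (mul_nonneg hτ hΩ.le)
  have h1 := wpairs_main (R := Option V) (fun x r => dec r fun i => f r i x) (entW c τ ω)
    (entW_nonneg hω hc hτ) P ((c - 1) * (τ * ∑ u, ω u)) (s * A) γ hm
    (fun x i hx hy => by
      rw [hP] at hx hy
      have h2 := vc_pair hω hc hτ (SSE.odd_flip i x) hx hy
      rw [hY x, hY (SSE.flip i x)] at h2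
      exact h2)
    (by rw [hP]; exact hA)
    (fun r => by
      have h1 := fun_tsens (f r) (2 ^ N * A) (hf r) (dec r)
      have h2 : (s : ℝ) * (2 ^ N * A) = s * A * 2 ^ N := by ring
      rw [h2] at h1
      convert h1)
  rw [sum_entW] at h1
  -- there is a right pair
  rcases Nat.eq_zero_or_pos N with hN | hN
  · subst hN
    have h2 : 0 ≤ (1 + (c - 1) * τ) * (∑ u, ω u) * (s * A) := by
      simpa using h1
    have h3 : 0 < (1 + (c - 1) * τ) * ∑ u, ω u := by
      have : 0 ≤ (c - 1) * τ := mul_nonneg (by linarith) hτ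
      positivity
    have h4 : 0 ≤ s * A := by
      by_contra hcon
      push Not at hcon
      have := mul_neg_of_pos_of_neg h3 hcon
      linarith
    simpa using h4
  · have hex : ∃ x : Fin N → Bool, ∃ i, P x ∧ P (SSE.flip i x) := by
      by_contra hcon
      push Not at hcon
      have h2 := pairs_ge P γ (by rw [Fintype.card_fin, hP]; exact hA) (⟨0, hN⟩ : Fin N)
      rw [sum_eq_zero (fun x _ => if_neg fun h => hcon x _ h.1 h.2)] at h2
      rw [Fintype.card_fin] at h2
      have : (0 : ℝ) < 2 * γ * 2 ^ N := by positivity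
      linarith
    obtain ⟨x, i, hx, hy⟩ := hex
    have hb : (c - 1) * τ ≤ 1 := by
      rw [hP] at hx hy
      by_cases hodd : Odd (univ.filter fun i => x i = true).card
      · exact hx.bound hc hΩ hodd
      · exact hy.bound hc hΩ ((SSE.odd_flip i x).2 hodd)
    have h2 : 0 ≤ (c - 1) * τ := mul_nonneg (by linarith) hτ
    have h3 : (2 * γ * N * ((c - 1) * τ)) * (∑ u, ω u) ≤
        ((1 + (c - 1) * τ) * (s * A)) * (∑ u, ω u) := by
      calc _ = 2 * γ * N * ((c - 1) * (τ * ∑ u, ω u)) := by ring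
        _ ≤ _ := h1
        _ = _ := by ring
    have h4 := le_of_mul_le_mul_right h3 hΩ
    have h5 : 0 ≤ s * A := by
      by_contra hcon
      push Not at hcon
      have h6 : 0 ≤ 2 * γ * N * ((c - 1) * τ) := by positivity
      nlinarith
    have h7 : (1 + (c - 1) * τ) * (s * A) ≤ 2 * (s * A) :=
      mul_le_mul_of_nonneg_right (by linarith) h5
    nlinarith

/-- The worst case bound for reductions with few negations. -/
theorem vc_stair {N b n : ℕ} {c τ : ℝ} {ω : V → ℝ} (hω : ∀ u, 0 ≤ ω u) (hΩ : 0 < ∑ u, ω u)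
    (hc : 1 ≤ c) (hτ : 0 ≤ τ) (hN : 1 ≤ N)
    (f : Option V → Fin b → (Fin N → Bool) → Bool)
    (nb : V → (Fin b → Bool) → Finset V) (w : V → (Fin b → Bool) → ℝ) (t : (Fin b → Bool) → ℝ)
    (hf : ∀ u i, NegComp n (f u i))
    (hA : ∀ j ≤ N, VcRight c τ ω (Odd (univ.filter fun i => stair N j i = true).card)
        (fun u => nb u fun i => f (some u) i (stair N j))
        (fun u => w u fun i => f (some u) i (stair N j)) (t fun i => f none i (stair N j))) :
    (c - 1) * τ * N ≤ 2 * b * (2 ^ (n + 1) - 1) := by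
  obtain ⟨dec, hdec⟩ : ∃ dec : Option V → (Fin b → Bool) → Finset V × ℝ,
      dec = fun r z => entries (fun u => nb u z) (fun u => w u z) (t z) r := ⟨_, rfl⟩
  have hY : ∀ x : Fin N → Bool, entries (fun u => nb u fun i => f (some u) i x)
      (fun u => w u fun i => f (some u) i x) (t fun i => f none i x) =
      fun r => dec r fun i => f r i x := by
    intro x
    funext r
    rw [hdec]
    cases r <;> rfl
  have hb0 : (((b * (2 ^ (n + 1) - 1) : ℕ)) : ℝ) = b * (2 ^ (n + 1) - 1) := by
    have : 1 ≤ 2 ^ (n + 1) := Nat.one_le_two_pow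
    push_cast [Nat.cast_sub this]
    ring
  have h1 := wstair_pairs (R := Option V) (N := N) (fun x r => dec r fun i => f r i x)
    (entW c τ ω) (entW_nonneg hω hc hτ) ((c - 1) * (τ * ∑ u, ω u)) (b * (2 ^ (n + 1) - 1))
    (fun j hj => by
      have h2 : (Odd (univ.filter fun i => stair N (j + 1) i = true).card) ↔
          ¬ Odd (univ.filter fun i => stair N j i = true).card := by
        rw [stair_ones N j hj.le, stair_ones N (j + 1) hj, Nat.odd_add_one]
      have h3 := vc_pair hω hc hτ h2 (hA j hj.le) (hA (j + 1) hj)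
      rw [hY (stair N j), hY (stair N (j + 1))] at h3
      exact h3)
    (fun r => by
      have h1 : ((range N).filter fun j => dec r (fun i => f r i (stair N (j + 1))) ≠
          dec r (fun i => f r i (stair N j))) ⊆
          (univ : Finset (Fin b)).biUnion fun i =>
            (range N).filter fun j => f r i (stair N (j + 1)) ≠ f r i (stair N j) := by
        intro j hj
        rw [mem_filter] at hj
        rw [mem_biUnion]
        by_contra hcon
        push Not at hcon
        apply hj.2
        congr 1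
        funext i
        have := hcon i (mem_univ _)
        rw [mem_filter] at this
        push Not at this
        exact this hj.1
      have h2 : ((range N).filter fun j => dec r (fun i => f r i (stair N (j + 1))) ≠
          dec r (fun i => f r i (stair N j))).card ≤ b * (2 ^ (n + 1) - 1) := by
        refine (card_le_card h1).trans (card_biUnion_le.trans ?_)
        calc ∑ i, ((range N).filter fun j => f r i (stair N (j + 1)) ≠
              f r i (stair N j)).card ≤
              ∑ _i : Fin b, (2 ^ (n + 1) - 1) := by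
              refine sum_le_sum fun i _ => ?_
              obtain ⟨l, hl, hmem⟩ := hf r i
              obtain ⟨K', _, hK, k', d, hk', hd⟩ := hl.det _ hmem
              have h3 : ((range N).filter fun j => f r i (stair N (j + 1)) ≠
                  f r i (stair N j)).card ≤ Fintype.card K' := by
                convert det_chain k' hk' _ d hd (stair N) (stair_mono N) N
              omega
          _ = _ := by rw [sum_const, card_univ, Fintype.card_fin, smul_eq_mul]
      rw [← hb0]
      exact_mod_cast (by convert h2))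
  rw [sum_entW] at h1
  have hb : (c - 1) * τ ≤ 1 := by
    have h2 := hA 1 hN
    exact h2.bound hc hΩ (by rw [stair_ones N 1 hN]; exact odd_one)
  have h3 : (N * ((c - 1) * τ)) * (∑ u, ω u) ≤
      ((1 + (c - 1) * τ) * (b * (2 ^ (n + 1) - 1))) * (∑ u, ω u) := by
    calc _ = N * ((c - 1) * (τ * ∑ u, ω u)) := by ring
      _ ≤ _ := h1
      _ = _ := by ring
  have h4 := le_of_mul_le_mul_right h3 hΩ
  have h5 : (0 : ℝ) ≤ b * (2 ^ (n + 1) - 1) := by
    rw [← hb0]
    exact Nat.cast_nonneg _
  have h7 : (1 + (c - 1) * τ) * (b * (2 ^ (n + 1) - 1)) ≤ 2 * (b * (2 ^ (n + 1) - 1)) :=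
    mul_le_mul_of_nonneg_right (by linarith) h5
  linarith

end vc

end Pool.Agent.X246.ACR
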